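import Pool.Agent.H81.BX.Br

/-!
Restriction of a refutation of the bit pigeonhole principle to the pigeons which it uses, followed by linear maps (helper84; after
H81/BX/Br).
-/

set_option autoImplicit false
open scoped Classical

namespace H84BA

open ResXor BitPigeonhole H81BX

variable {m m' s l : ℕ}

/-- The substitution: the pigeon `a` sits in the hole of the pigeon `ψ a`, or in the hole `0`. -/
def sub' (ψ : Fin m → Option (Fin m')) (c : Fin m' → Fin s → Fin l → ZMod 2) (z : Pt (m' * s)) :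
    Fin m × Fin l → ZMod 2 :=
  fun p => (ψ p.1).elim 0 fun a => pos c a (zz z a) p.2

theorem lin_mem' (ψ : Fin m → Option (Fin m')) (c : Fin m' → Fin s → Fin l → ZMod 2) (p : Fin m × Fin l) :
    (fun z : Pt (m' * s) => sub' ψ c z p) ∈ H96RE.Pol (m' * s) 1 := by
  rcases h : ψ p.1 with _ | a
  · have h1 : (fun z : Pt (m' * s) => sub' ψ c z p) = 0 := by
      funext z
      unfold sub'
      rw [h]
      rfl
    rw [h1]
    exact Submodule.zero_mem _
  · have h1 : (fun z : Pt (m' * s) => sub' ψ c z p) = fun z => H81BX.sub c z (a, p.2) := by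
      funext z
      unfold sub' H81BX.sub
      rw [h]
      rfl
    rw [h1]
    exact lin_mem c (a, p.2)

theorem prod_mem' (ψ : Fin m → Option (Fin m')) (c : Fin m' → Fin s → Fin l → ZMod 2)
    (T : Finset (Fin m × Fin l)) :
    (fun z : Pt (m' * s) => ∏ v ∈ T, sub' ψ c z v) ∈ H96RE.Pol (m' * s) T.card := by
  induction T using Finset.induction_on with
  | empty =>
    simp only [Finset.prod_empty]
    exact H96RE.const_mem 1
  | insert v T hv ih =>
    rw [Finset.card_insert_of_notMem hv, add_comm]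
    have h1 : (fun z : Pt (m' * s) => ∏ v ∈ insert v T, sub' ψ c z v) =
        (fun z : Pt (m' * s) => sub' ψ c z v) * fun z => ∏ v ∈ T, sub' ψ c z v := by
      funext z
      rw [Finset.prod_insert hv]
      rfl
    rw [h1]
    exact H96RE.Pol_mul (lin_mem' ψ c v) ih

theorem deg_sub' (ψ : Fin m → Option (Fin m')) (c : Fin m' → Fin s → Fin l → ZMod 2) {d : ℕ}
    {g : (Fin m × Fin l → ZMod 2) → ZMod 2} (hg : DegLE d g) :
    (fun z : Pt (m' * s) => 1 + g (sub' ψ c z)) ∈ H96RE.Pol (m' * s) d := by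
  obtain ⟨a, ha⟩ := hg
  have h1 : (fun z : Pt (m' * s) => 1 + g (sub' ψ c z)) = (fun _ => (1 : ZMod 2)) +
      ∑ T ∈ Finset.univ.filter (fun T : Finset (Fin m × Fin l) => T.card ≤ d),
        a T • fun z : Pt (m' * s) => ∏ v ∈ T, sub' ψ c z v := by
    funext z
    rw [Pi.add_apply, ha, Finset.sum_apply]
    congr 1
  rw [h1]
  exact Submodule.add_mem _ (H96RE.const_mem 1) (Submodule.sum_mem _ fun T hT => Submodule.smul_mem _ _
    (H96RE.Pol_mono (Finset.mem_filter.1 hT).2 (prod_mem' ψ c T)))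

theorem bridge' {e t f N : ℕ} (h : Refutes e (DegLE t) f (Different m l) N) :
    ∃ m' : ℕ, m' ≤ m ∧ m' ≤ 2 * N ∧ ∀ (s : ℕ) (c : Fin m' → Fin s → Fin l → ZMod 2),
    ∃ A : ℕ → Set (Pt (m' * s)),
    (∀ i < N, ∃ (P : Set (Pt (m' * s) → ZMod 2)) (h : Pt (m' * s) → ZMod 2),
      (∀ p ∈ P, p ∈ H96RE.Pol (m' * s) e) ∧ h ∈ H96RE.Pol (m' * s) t ∧
        A i = {x | (∀ p ∈ P, p x = 0) ∧ h x = 0}) ∧
    (∀ i < N, (∃ a b, a ≠ b ∧ ∀ x ∈ A i, pos c a (zz x a) = pos c b (zz x b)) ∨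
      ∃ Q : Finset ℕ, Q.card ≤ f ∧ (∀ j ∈ Q, j < i) ∧ ∀ x ∈ A i, ∃ j ∈ Q, x ∈ A j) ∧
    ∃ i < N, A i = Set.univ := by
  obtain ⟨L, hN, hlast, hL⟩ := h
  -- the pigeons which are used
  have hch : ∀ i, ∃ W : Finset (Fin m), W.card ≤ 2 ∧ (i < N →
      (∃ a b : Fin m, a ∈ W ∧ b ∈ W ∧ a ≠ b ∧ ∀ x ∈ {x : Fin m × Fin l → ZMod 2 | ∃ j, x (a, j) ≠ x (b, j)},
        (L i).Holds x) ∨
      ∃ J : Finset ℕ, J.card ≤ f ∧ (∀ j ∈ J, j < i) ∧ ∀ x, (∀ j ∈ J, (L j).Holds x) → (L i).Holds x) := by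
    intro i
    by_cases hi : i < N
    · rcases hL i hi with ⟨C, ⟨a, b, hab, rfl⟩, hC⟩ | h
      · exact ⟨{a, b}, Finset.card_le_two, fun _ => Or.inl ⟨a, b, by simp, by simp, hab, hC⟩⟩
      · exact ⟨∅, by simp, fun _ => Or.inr h⟩
    · exact ⟨∅, by simp, fun h => absurd h hi⟩
  choose W hW1 hW2 using hch
  obtain ⟨Y, hY⟩ : ∃ Y : Finset (Fin m), Y = (Finset.range N).biUnion W := ⟨_, rfl⟩
  have hYc : Y.card ≤ 2 * N := by
    rw [hY]
    refine Finset.card_biUnion_le.trans ?_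
    refine (Finset.sum_le_sum fun i _ => hW1 i).trans (le_of_eq ?_)
    rw [Finset.sum_const, Finset.card_range, smul_eq_mul, mul_comm]
  have hYm : Y.card ≤ m := by
    have := Finset.card_le_univ Y
    rwa [Fintype.card_fin] at this
  obtain ⟨φ⟩ : Nonempty (Y ≃ Fin Y.card) := ⟨Y.equivFin⟩
  obtain ⟨ψ, hψ⟩ : ∃ ψ : Fin m → Option (Fin Y.card), ∀ (a : Fin m) (h : a ∈ Y), ψ a = some (φ ⟨a, h⟩) :=
    ⟨fun a => if h : a ∈ Y then some (φ ⟨a, h⟩) else none, fun a h => dif_pos h⟩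
  refine ⟨Y.card, hYm, hYc, fun s c => ?_⟩
  have h01 : ∀ a : ZMod 2, 1 + a = 0 ↔ ¬ a = 0 := by decide
  have hmem : ∀ i (z : Pt (Y.card * s)), z ∈ {z : Pt (Y.card * s) | ¬ (L i).Holds (sub' ψ c z)} ↔
      ((∀ p ∈ (fun g : (Fin m × Fin l → ZMod 2) → ZMod 2 => fun z : Pt (Y.card * s) => 1 + g (sub' ψ c z)) ''
        (L i).E, p z = 0) ∧ 1 + (L i).p (sub' ψ c z) = 0) := by
    intro i z
    have h1 : z ∈ {z : Pt (Y.card * s) | ¬ (L i).Holds (sub' ψ c z)} ↔ ¬ (L i).Holds (sub' ψ c z) := Iff.rfl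
    rw [h1]
    unfold Line.Holds
    rw [not_or]
    constructor
    · rintro ⟨h2, h3⟩
      refine ⟨?_, (h01 _).2 h3⟩
      rintro _ ⟨g, hg, rfl⟩
      exact (h01 _).2 fun h4 => h2 ⟨g, hg, h4⟩
    · rintro ⟨h2, h3⟩
      refine ⟨?_, (h01 _).1 h3⟩
      rintro ⟨g, hg, h4⟩
      exact (h01 _).1 (h2 _ ⟨g, hg, rfl⟩) h4
  refine ⟨fun i => {z | ¬ (L i).Holds (sub' ψ c z)}, ?_, ?_, ?_⟩
  · intro i _
    refine ⟨(fun g : (Fin m × Fin l → ZMod 2) → ZMod 2 => fun z : Pt (Y.card * s) => 1 + g (sub' ψ c z)) '' (L i).E,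
      fun z => 1 + (L i).p (sub' ψ c z), ?_, deg_sub' ψ c (L i).hp, ?_⟩
    · rintro _ ⟨g, hg, rfl⟩
      exact deg_sub' ψ c ((L i).hE g hg)
    · ext z
      exact hmem i z
  · intro i hi
    rcases hW2 i hi with ⟨a, b, ha, hb, hab, hC⟩ | ⟨J, hJ, hJi, hJL⟩
    · have haY : a ∈ Y := by
        rw [hY]
        exact Finset.mem_biUnion.2 ⟨i, Finset.mem_range.2 hi, ha⟩
      have hbY : b ∈ Y := by
        rw [hY]
        exact Finset.mem_biUnion.2 ⟨i, Finset.mem_range.2 hi, hb⟩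
      refine Or.inl ⟨φ ⟨a, haY⟩, φ ⟨b, hbY⟩, fun h1 => hab ?_, fun z hz => ?_⟩
      · exact congrArg Subtype.val (φ.injective h1)
      · by_contra hne
        have hz' : ¬ (L i).Holds (sub' ψ c z) := hz
        refine hz' (hC _ ?_)
        by_contra h2
        refine hne (funext fun j => ?_)
        by_contra h3
        refine h2 ⟨j, fun h4 => h3 ?_⟩
        have h5 : sub' ψ c z (a, j) = pos c (φ ⟨a, haY⟩) (zz z (φ ⟨a, haY⟩)) j := by
          unfold sub'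
          rw [hψ a haY]
          rfl
        have h6 : sub' ψ c z (b, j) = pos c (φ ⟨b, hbY⟩) (zz z (φ ⟨b, hbY⟩)) j := by
          unfold sub'
          rw [hψ b hbY]
          rfl
        rw [h5, h6] at h4
        exact h4
    · refine Or.inr ⟨J, hJ, hJi, fun z hz => ?_⟩
      by_contra h2
      have hz' : ¬ (L i).Holds (sub' ψ c z) := hz
      refine hz' (hJL _ fun j hj => ?_)
      by_contra h3
      exact h2 ⟨j, hj, h3⟩
  · refine ⟨N - 1, by omega, ?_⟩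
    ext z
    exact ⟨fun _ => Set.mem_univ _, fun _ => hlast _⟩

end H84BA
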