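import Pool.Agent.H84.BA.Rk
import Pool.Agent.H81.BX.Mp

/-!
Existence of a table of linear maps with good expansion (helper84; after H81/BX/Mp and Bad).
-/

set_option autoImplicit false
open scoped Classical

namespace H84BA

open H81BX

variable {m s l : ℕ}

/-- The holes which the pigeons of `Ea` can use. -/
noncomputable def Hol (c : Fin m → Fin s → Fin l → ZMod 2) (Ea : Finset (Fin m)) : Finset (Fin l → ZMod 2) :=
  (Ea ×ˢ (Finset.univ : Finset (Fin s → ZMod 2))).image fun q => pos c q.1 q.2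

theorem hol_card (c : Fin m → Fin s → Fin l → ZMod 2) (Ea : Finset (Fin m)) :
    (Hol c Ea).card ≤ 2 ^ s * Ea.card := by
  refine Finset.card_image_le.trans (le_of_eq ?_)
  rw [Finset.card_product, Finset.card_univ, Fintype.card_fun, ZMod.card, Fintype.card_fin, mul_comm]

theorem hol_congr {c c' : Fin m → Fin s → Fin l → ZMod 2} {Ea : Finset (Fin m)} (h : ∀ a ∈ Ea, c a = c' a) :
    Hol c Ea = Hol c' Ea := by
  refine Finset.image_congr ?_
  rintro ⟨b, v⟩ hb
  have hb1 := (Finset.mem_product.1 (Finset.mem_coe.1 hb)).1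
  change pos c b v = pos c' b v
  unfold pos
  rw [h b hb1]

theorem bad_data' (c : Fin m → Fin s → Fin l → ZMod 2) {α R : ℕ} (hR : α + 3 + R ≤ s) (J : Finset (Fin m))
    (hJ : 4 * ((phq c α).bd J).card < J.card) :
    ∃ Ea G : Finset (Fin m), Ea ⊆ J ∧ G ⊆ J ∧ Disjoint Ea G ∧ J.card ≤ 11 * G.card ∧
      ∀ a ∈ G, c a ∈ BadT R (Hol c Ea) := by
  obtain ⟨U, hU⟩ : ∃ U : Finset (Fin m), U = J.filter fun a => ¬ FreeA c α J a := ⟨_, rfl⟩
  have hUc : 3 * J.card ≤ 4 * U.card := by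
    have h1 := Finset.card_filter_add_card_filter_not (s := J) (FreeA c α J)
    have h2 : (phq c α).bd J = J.filter (FreeA c α J) := rfl
    rw [h2] at hJ
    rw [hU]
    omega
  obtain ⟨K0, hK0⟩ : ∃ K0 : ℕ, K0 = 2 ^ (s - α) := ⟨_, rfl⟩
  have hK0p : 0 < K0 := by rw [hK0]; positivity
  have h1 : ∀ a : Fin m, ∃ Cv : Finset (Fin s → ZMod 2), a ∈ U → Cv ⊆ Cov c J a ∧ Cv.card = K0 := by
    intro a
    by_cases ha : a ∈ U
    · rw [hU] at ha
      have h2 := (Finset.mem_filter.1 ha).2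
      unfold FreeA at h2
      rw [not_lt] at h2
      obtain ⟨Cv, hCv, hcard⟩ := Finset.exists_subset_card_eq h2
      exact ⟨Cv, fun _ => ⟨hCv, hcard.trans hK0.symm⟩⟩
    · exact ⟨∅, fun h => absurd h ha⟩
  choose Cv hCv using h1
  have h2 : ∀ p : Fin m × (Fin s → ZMod 2), ∃ b : Fin m, p.1 ∈ U → p.2 ∈ Cv p.1 →
      b ∈ J ∧ b ≠ p.1 ∧ ∃ v, pos c p.1 p.2 = pos c b v := by
    intro p
    by_cases h : p.1 ∈ U ∧ p.2 ∈ Cv p.1
    · obtain ⟨-, b, hb, hba, v, hv⟩ := Finset.mem_filter.1 ((hCv p.1 h.1).1 h.2)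
      exact ⟨b, fun _ _ => ⟨hb, hba, v, hv⟩⟩
    · exact ⟨p.1, fun h3 h4 => absurd ⟨h3, h4⟩ h⟩
  choose b hb using h2
  obtain ⟨I, hI⟩ : ∃ I : Finset (Fin m × (Fin s → ZMod 2)),
      I = Finset.univ.filter fun p => p.1 ∈ U ∧ p.2 ∈ Cv p.1 := ⟨_, rfl⟩
  obtain ⟨L, hL⟩ := cut I (fun p => p.1) b (by
    intro p hp
    rw [hI] at hp
    obtain ⟨-, h3, h4⟩ := Finset.mem_filter.1 hp
    exact (hb p h3 h4).2.1.symm)
  obtain ⟨k, hk⟩ : ∃ k : Fin m → Finset (Fin s → ZMod 2),
      k = fun a => (Cv a).filter fun u => L (b (a, u)) = false := ⟨_, rfl⟩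
  have hIc : I.card = U.card * K0 := by
    have h3 : I = (U.sigma fun a => Cv a).map
        (Equiv.sigmaEquivProd (Fin m) (Fin s → ZMod 2)).toEmbedding := by
      ext p
      rw [hI, Finset.mem_filter, Finset.mem_map]
      constructor
      · rintro ⟨-, h5, h6⟩
        exact ⟨⟨p.1, p.2⟩, Finset.mem_sigma.2 ⟨h5, h6⟩, rfl⟩
      · rintro ⟨q, hq, rfl⟩
        obtain ⟨h5, h6⟩ := Finset.mem_sigma.1 hq
        exact ⟨Finset.mem_univ _, h5, h6⟩
    rw [h3, Finset.card_map, Finset.card_sigma, Finset.sum_congr rfl fun a ha => (hCv a ha).2,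
      Finset.sum_const, smul_eq_mul]
  have hIL : (I.filter fun i => L i.1 = true ∧ L (b i) = false).card =
      ∑ a ∈ U.filter (fun a => L a = true), (k a).card := by
    have h3 : (I.filter fun i => L i.1 = true ∧ L (b i) = false) =
        ((U.filter fun a => L a = true).sigma k).map
          (Equiv.sigmaEquivProd (Fin m) (Fin s → ZMod 2)).toEmbedding := by
      ext p
      rw [hI, Finset.mem_filter, Finset.mem_filter, Finset.mem_map]
      constructor
      · rintro ⟨⟨-, h5, h6⟩, h7, h8⟩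
        refine ⟨⟨p.1, p.2⟩, Finset.mem_sigma.2 ⟨Finset.mem_filter.2 ⟨h5, h7⟩, ?_⟩, rfl⟩
        rw [hk]
        exact Finset.mem_filter.2 ⟨h6, h8⟩
      · rintro ⟨q, hq, rfl⟩
        obtain ⟨h5, h6⟩ := Finset.mem_sigma.1 hq
        rw [hk] at h6
        obtain ⟨h7, h8⟩ := Finset.mem_filter.1 h5
        obtain ⟨h9, h10⟩ := Finset.mem_filter.1 h6
        exact ⟨⟨Finset.mem_univ _, h7, h9⟩, h8, h10⟩
    rw [h3, Finset.card_map, Finset.card_sigma]
  obtain ⟨G, hG⟩ : ∃ G : Finset (Fin m),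
      G = (U.filter fun a => L a = true).filter fun a => K0 ≤ 8 * (k a).card := ⟨_, rfl⟩
  have hkK : ∀ a ∈ U, (k a).card ≤ K0 := by
    intro a ha
    rw [hk]
    exact (Finset.card_filter_le _ _).trans (le_of_eq (hCv a ha).2)
  have hsum : 8 * ∑ a ∈ U.filter (fun a => L a = true), (k a).card ≤ 8 * (G.card * K0) + U.card * K0 := by
    rw [← Finset.sum_filter_add_sum_filter_not (U.filter fun a => L a = true) (fun a => K0 ≤ 8 * (k a).card),
      ← hG, mul_add]
    refine Nat.add_le_add ?_ ?_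
    · refine Nat.mul_le_mul_left _ ?_
      rw [← smul_eq_mul, ← Finset.sum_const]
      refine Finset.sum_le_sum fun a ha => hkK a ?_
      rw [hG] at ha
      exact (Finset.mem_filter.1 (Finset.mem_filter.1 ha).1).1
    · rw [Finset.mul_sum]
      calc ∑ a ∈ (U.filter fun a => L a = true).filter (fun a => ¬ K0 ≤ 8 * (k a).card), 8 * (k a).card
          ≤ ∑ _a ∈ (U.filter fun a => L a = true).filter (fun a => ¬ K0 ≤ 8 * (k a).card), K0 :=
            Finset.sum_le_sum fun a ha => (not_le.1 (Finset.mem_filter.1 ha).2).le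
        _ ≤ U.card * K0 := by
            rw [Finset.sum_const, smul_eq_mul]
            exact Nat.mul_le_mul_right _ ((Finset.card_filter_le _ _).trans (Finset.card_filter_le _ _))
  have hUG : U.card ≤ 8 * G.card := by
    rw [hIc, hIL] at hL
    have h3 : U.card * K0 ≤ 8 * G.card * K0 := by
      have h4 : 8 * G.card * K0 = 8 * (G.card * K0) := by ring
      rw [h4]
      omega
    exact Nat.le_of_mul_le_mul_right h3 hK0p
  refine ⟨J.filter fun a => L a = false, G, Finset.filter_subset _ _, ?_, ?_, by omega, ?_⟩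
  · intro a ha
    rw [hG, hU] at ha
    exact (Finset.mem_filter.1 (Finset.mem_filter.1 (Finset.mem_filter.1 ha).1).1).1
  · rw [Finset.disjoint_left]
    intro a ha ha'
    rw [hG] at ha'
    have h3 := (Finset.mem_filter.1 ha).2
    have h4 := (Finset.mem_filter.1 (Finset.mem_filter.1 ha').1).2
    rw [h3] at h4
    exact Bool.false_ne_true h4
  · intro a ha
    rw [hG] at ha
    obtain ⟨h3, h4⟩ := Finset.mem_filter.1 ha
    have haU := (Finset.mem_filter.1 h3).1
    unfold BadT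
    refine Finset.mem_filter.2 ⟨Finset.mem_univ _, ?_⟩
    have h5 : 2 ^ R ≤ (k a).card := by
      have h6 : 8 * 2 ^ R ≤ K0 := by
        rw [hK0]
        calc 8 * 2 ^ R = 2 ^ (3 + R) := by rw [pow_add]; norm_num
          _ ≤ 2 ^ (s - α) := Nat.pow_le_pow_right (by norm_num) (by omega)
      omega
    refine h5.trans (Finset.card_le_card fun u hu => ?_)
    rw [hk] at hu
    obtain ⟨h6, h7⟩ := Finset.mem_filter.1 hu
    obtain ⟨h8, -, v, hv⟩ := hb (a, u) haU h6
    refine Finset.mem_filter.2 ⟨Finset.mem_univ _, ?_⟩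
    unfold Hol
    refine Finset.mem_image.2 ⟨(b (a, u), v), Finset.mem_product.2
      ⟨Finset.mem_filter.2 ⟨h8, h7⟩, Finset.mem_univ _⟩, ?_⟩
    exact hv.symm

/-- A table of linear maps with good expansion. -/
theorem exists_maps' {α r B : ℕ} (hs : α + 3 + 11 * r ≤ s) (hr : 1 ≤ r)
    (hB : 48 * (m * (2 ^ (2 * s) * B) ^ r) ≤ (2 ^ l) ^ r) :
    ∃ c : Fin m → Fin s → Fin l → ZMod 2, (phq c α).Exp 4 B := by
  by_contra hcon
  push Not at hcon
  obtain ⟨n, hn⟩ : ∃ n : ℕ, n = 2 ^ l := ⟨_, rfl⟩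
  obtain ⟨S, hS⟩ : ∃ S : ℕ, S = 2 ^ (2 * s) := ⟨_, rfl⟩
  rw [← hn, ← hS] at hB
  have hnp : 0 < n := by
    rw [hn]
    positivity
  have hnr : (0 : ℝ) < n := by exact_mod_cast hnp
  -- numerics
  have hnum : ∀ j : ℕ, 1 ≤ j → j ≤ B → 48 * (m * (S * j) ^ r) ≤ j * n ^ r := by
    intro j hj hjB
    calc 48 * (m * (S * j) ^ r) ≤ 48 * (m * (S * B) ^ r) := by gcongr
      _ ≤ n ^ r := hB
      _ = 1 * n ^ r := by ring
      _ ≤ j * n ^ r := by gcongr
  have hle : ∀ j : ℕ, 1 ≤ j → j ≤ B → j ≤ m → S * j ≤ n := by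
    intro j hj hjB hjm
    have h1 : (S * j) ^ r ≤ n ^ r := by
      calc (S * j) ^ r ≤ (S * B) ^ r := by gcongr
        _ = 1 * (1 * (S * B) ^ r) := by ring
        _ ≤ 48 * (m * (S * B) ^ r) := by
          gcongr
          · norm_num
          · omega
        _ ≤ n ^ r := hB
    exact (Nat.pow_le_pow_iff_left (by omega)).1 h1
  -- the count for one description
  obtain ⟨Pr, hPr⟩ : ∃ Pr : Finset (Fin m) → Finset (Finset (Fin m) × Finset (Fin m)),
      Pr = fun J => (J.powerset ×ˢ J.powerset).filter fun p => Disjoint p.1 p.2 ∧ J.card ≤ 11 * p.2.card := ⟨_, rfl⟩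
  have hev : ∀ J : Finset (Fin m), 1 ≤ J.card → J.card ≤ B → ∀ p ∈ Pr J,
      ((Finset.univ.filter (fun c : Fin m → Fin s → Fin l → ZMod 2 =>
        ∀ a ∈ p.2, c a ∈ BadT (11 * r) (Hol c p.1))).card : ℝ) ≤
        ((n : ℝ) ^ s) ^ m * (((S * J.card : ℕ) : ℝ) / n) ^ (r * J.card) := by
    rintro J hJ1 hJB ⟨Ea, G⟩ hp
    rw [hPr] at hp
    obtain ⟨hp1, hdis, hJG⟩ := Finset.mem_filter.1 hp
    obtain ⟨hEa, hGJ⟩ := Finset.mem_product.1 hp1
    have hEaJ := Finset.mem_powerset.1 hEa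
    have hJm : J.card ≤ m := by
      have := Finset.card_le_univ J
      rwa [Fintype.card_fin] at this
    have hcardD : Fintype.card (Fin s → Fin l → ZMod 2) = n ^ s := by
      rw [Fintype.card_fun, Fintype.card_fun, ZMod.card, Fintype.card_fin, Fintype.card_fin, hn]
    obtain ⟨K, hK⟩ : ∃ K : ℕ, K = (S * J.card) ^ (11 * r) * n ^ s / n ^ (11 * r) := ⟨_, rfl⟩
    have hKle : K * n ^ (11 * r) ≤ (S * J.card) ^ (11 * r) * n ^ s := by
      rw [hK]
      exact Nat.div_mul_le_self _ _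
    have h1 := row_count (D := Fin s → Fin l → ZMod 2) G K (fun c _ => BadT (11 * r) (Hol c Ea))
      (by
        intro c c' hcc' a _
        show BadT (11 * r) (Hol c Ea) = BadT (11 * r) (Hol c' Ea)
        rw [hol_congr fun a ha => hcc' a fun haG => Finset.disjoint_left.1 hdis ha haG])
      (by
        intro c a _
        show (BadT (11 * r) (Hol c Ea)).card ≤ K
        rw [hK, Nat.le_div_iff_mul_le (by positivity)]
        have h2 := badT_card (s := s) (11 * r) (Hol c Ea)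
        rw [← hn] at h2
        refine h2.trans ?_
        have h3 : 2 ^ s * (Hol c Ea).card ≤ S * J.card := by
          calc 2 ^ s * (Hol c Ea).card ≤ 2 ^ s * (2 ^ s * Ea.card) := Nat.mul_le_mul_left _ (hol_card c Ea)
            _ = S * Ea.card := by
              rw [hS, ← mul_assoc, ← pow_add]
              congr 2
              ring
            _ ≤ S * J.card := Nat.mul_le_mul_left _ (Finset.card_le_card hEaJ)
        gcongr)
      (Finset.univ.filter (fun c : Fin m → Fin s → Fin l → ZMod 2 =>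
        ∀ a ∈ G, c a ∈ BadT (11 * r) (Hol c Ea)))
      (fun c hc a ha => (Finset.mem_filter.1 hc).2 a ha)
    rw [hcardD] at h1
    obtain ⟨X, hX⟩ : ∃ X : ℕ, X = (Finset.univ.filter (fun c : Fin m → Fin s → Fin l → ZMod 2 =>
        ∀ a ∈ G, c a ∈ BadT (11 * r) (Hol c Ea))).card := ⟨_, rfl⟩
    rw [← hX] at h1
    show ((Finset.univ.filter (fun c : Fin m → Fin s → Fin l → ZMod 2 =>
        ∀ a ∈ G, c a ∈ BadT (11 * r) (Hol c Ea))).card : ℝ) ≤ _
    rw [← hX]
    have h2 : X * n ^ (11 * r * G.card) ≤ (S * J.card) ^ (11 * r * G.card) * (n ^ s) ^ m := by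
      have h3 : (X * n ^ (11 * r * G.card)) * (n ^ s) ^ G.card ≤
          ((S * J.card) ^ (11 * r * G.card) * (n ^ s) ^ m) * (n ^ s) ^ G.card := by
        calc (X * n ^ (11 * r * G.card)) * (n ^ s) ^ G.card
            = (X * (n ^ s) ^ G.card) * (n ^ (11 * r)) ^ G.card := by
              rw [pow_mul n (11 * r) G.card]
              ring
          _ ≤ (K ^ G.card * (n ^ s) ^ m) * (n ^ (11 * r)) ^ G.card := Nat.mul_le_mul_right _ h1
          _ = (K * n ^ (11 * r)) ^ G.card * (n ^ s) ^ m := by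
              rw [mul_pow]
              ring
          _ ≤ ((S * J.card) ^ (11 * r) * n ^ s) ^ G.card * (n ^ s) ^ m :=
              Nat.mul_le_mul_right _ (Nat.pow_le_pow_left hKle _)
          _ = ((S * J.card) ^ (11 * r * G.card) * (n ^ s) ^ m) * (n ^ s) ^ G.card := by
              rw [mul_pow, pow_mul (S * J.card) (11 * r) G.card]
              ring
      exact Nat.le_of_mul_le_mul_right h3 (by positivity)
    have h3 : (X : ℝ) ≤ ((n : ℝ) ^ s) ^ m * (((S * J.card : ℕ) : ℝ) / n) ^ (11 * r * G.card) := by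
      rw [div_pow, mul_div_assoc', le_div_iff₀ (by positivity)]
      have h4 : ((X * n ^ (11 * r * G.card) : ℕ) : ℝ) ≤
          (((S * J.card) ^ (11 * r * G.card) * (n ^ s) ^ m : ℕ) : ℝ) := by exact_mod_cast h2
      push_cast at h4 ⊢
      linarith
    refine h3.trans (mul_le_mul_of_nonneg_left ?_ (by positivity))
    refine pow_le_pow_of_le_one (by positivity) ?_ ?_
    · rw [div_le_one hnr]
      exact_mod_cast hle J.card hJ1 hJB hJm
    · calc r * J.card ≤ r * (11 * G.card) := Nat.mul_le_mul_left _ hJG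
        _ = 11 * r * G.card := by ring
  -- the union bound
  have hcov : (Finset.univ : Finset (Fin m → Fin s → Fin l → ZMod 2)) ⊆
      (Finset.univ.filter (fun J : Finset (Fin m) => 1 ≤ J.card ∧ J.card ≤ B)).biUnion fun J =>
        (Pr J).biUnion fun p => Finset.univ.filter (fun c => ∀ a ∈ p.2, c a ∈ BadT (11 * r) (Hol c p.1)) := by
    intro c _
    have h1 := hcon c
    unfold Frame.Exp at h1
    push Not at h1
    obtain ⟨J, hJB, hJ⟩ := h1
    obtain ⟨Ea, G, h2, h3, h4, h5, h6⟩ := bad_data' c hs J hJ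
    refine Finset.mem_biUnion.2 ⟨J, Finset.mem_filter.2 ⟨Finset.mem_univ _, by omega, hJB⟩,
      Finset.mem_biUnion.2 ⟨(Ea, G), ?_, Finset.mem_filter.2 ⟨Finset.mem_univ _, h6⟩⟩⟩
    rw [hPr]
    exact Finset.mem_filter.2 ⟨Finset.mem_product.2 ⟨Finset.mem_powerset.2 h2, Finset.mem_powerset.2 h3⟩, h4, h5⟩
  have hcard : Fintype.card (Fin m → Fin s → Fin l → ZMod 2) = (n ^ s) ^ m := by
    rw [Fintype.card_fun, Fintype.card_fun, Fintype.card_fun, ZMod.card, Fintype.card_fin, Fintype.card_fin,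
      Fintype.card_fin, hn]
  have h1 : (((n ^ s) ^ m : ℕ) : ℝ) ≤
      ∑ J ∈ Finset.univ.filter (fun J : Finset (Fin m) => 1 ≤ J.card ∧ J.card ≤ B),
        ∑ p ∈ Pr J, ((Finset.univ.filter (fun c : Fin m → Fin s → Fin l → ZMod 2 =>
          ∀ a ∈ p.2, c a ∈ BadT (11 * r) (Hol c p.1))).card : ℝ) := by
    rw [← hcard, ← Finset.card_univ]
    have h2 := (Finset.card_le_card hcov).trans (Finset.card_biUnion_le.trans
      (Finset.sum_le_sum fun J _ => Finset.card_biUnion_le))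
    exact_mod_cast h2
  obtain ⟨g, hg⟩ : ∃ g : ℕ → ℝ, g = fun j => (4 * (((S * j : ℕ) : ℝ) / n) ^ r) ^ j := ⟨_, rfl⟩
  have h2 : ∀ J ∈ Finset.univ.filter (fun J : Finset (Fin m) => 1 ≤ J.card ∧ J.card ≤ B),
      ∑ p ∈ Pr J, ((Finset.univ.filter (fun c : Fin m → Fin s → Fin l → ZMod 2 =>
          ∀ a ∈ p.2, c a ∈ BadT (11 * r) (Hol c p.1))).card : ℝ) ≤
        ((n : ℝ) ^ s) ^ m * g J.card := by
    intro J hJ
    obtain ⟨-, hJ1, hJB⟩ := Finset.mem_filter.1 hJ
    calc ∑ p ∈ Pr J, ((Finset.univ.filter (fun c : Fin m → Fin s → Fin l → ZMod 2 =>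
          ∀ a ∈ p.2, c a ∈ BadT (11 * r) (Hol c p.1))).card : ℝ)
        ≤ ∑ _p ∈ Pr J, ((n : ℝ) ^ s) ^ m * (((S * J.card : ℕ) : ℝ) / n) ^ (r * J.card) :=
          Finset.sum_le_sum (hev J hJ1 hJB)
      _ = (Pr J).card * (((n : ℝ) ^ s) ^ m * (((S * J.card : ℕ) : ℝ) / n) ^ (r * J.card)) := by
          rw [Finset.sum_const, nsmul_eq_mul]
      _ ≤ ((4 ^ J.card : ℕ) : ℝ) * (((n : ℝ) ^ s) ^ m * (((S * J.card : ℕ) : ℝ) / n) ^ (r * J.card)) := by
          refine mul_le_mul_of_nonneg_right ?_ (by positivity)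
          have h3 : (Pr J).card ≤ 4 ^ J.card := by
            rw [hPr]
            refine (Finset.card_filter_le _ _).trans (le_of_eq ?_)
            rw [Finset.card_product, Finset.card_powerset, ← mul_pow]
            norm_num
          exact_mod_cast h3
      _ = ((n : ℝ) ^ s) ^ m * g J.card := by
          rw [hg]
          simp only
          rw [mul_pow, ← pow_mul]
          push_cast
          ring
  have h3 := h1.trans (Finset.sum_le_sum h2)
  rw [← Finset.mul_sum] at h3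
  have h4 := sum_small (m := m) B g (by
    intro j hj hjB hjm
    rw [hg]
    simp only
    refine pow_le_pow_left₀ (by positivity) ?_ j
    have hm0 : (0 : ℝ) < m := by
      have : 0 < m := by omega
      exact_mod_cast this
    rw [le_div_iff₀ (by positivity), div_pow, mul_div_assoc', div_mul_eq_mul_div, div_le_iff₀ (by positivity)]
    have h5 : ((48 * (m * (S * j) ^ r) : ℕ) : ℝ) ≤ ((j * n ^ r : ℕ) : ℝ) := by
      exact_mod_cast hnum j hj hjB
    push_cast at h5 ⊢
    linarith)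
  have h5 : (0 : ℝ) < ((n : ℝ) ^ s) ^ m := by positivity
  push_cast at h3
  nlinarith

end H84BA
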