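import Pool.Agent.H98.DH.TC

/-!
The multiplier argument for a filtration (helper84; after H96/RE/ThmC and H98/DH/TC).
-/

set_option autoImplicit false
open scoped Classical

namespace H84BA

open H96RE H91RE

private theorem Tc_zmod (a : ZMod 2) : a = 0 ∨ a = 1 := by
  revert a
  decide

private theorem Tc_union {n : ℕ} (D' : ℕ) (Er : ℕ → Set (Fin n → ZMod 2)) (N : ℕ) :
    H96RX.rk (Fin n → ZMod 2) D' {x | ∃ i < N, x ∈ Er i} ≤
      ∑ i ∈ Finset.range N, H96RX.rk (Fin n → ZMod 2) D' (Er i) := by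
  induction N with
  | zero =>
    have h1 : {x : Fin n → ZMod 2 | ∃ i < 0, x ∈ Er i} = ∅ := by
      ext x
      simp
    rw [h1, H96RX.rk_empty]
    exact Nat.zero_le _
  | succ N ih =>
    have h1 : {x : Fin n → ZMod 2 | ∃ i < N + 1, x ∈ Er i} = {x | ∃ i < N, x ∈ Er i} ∪ Er N := by
      ext x
      constructor
      · rintro ⟨i, hi, hx⟩
        rcases Nat.lt_succ_iff_lt_or_eq.1 hi with h | h
        · exact Or.inl ⟨i, h, hx⟩
        · rw [h] at hx
          exact Or.inr hx
      · rintro (⟨i, hi, hx⟩ | hx)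
        · exact ⟨i, hi.trans (Nat.lt_succ_self N), hx⟩
        · exact ⟨N, Nat.lt_succ_self N, hx⟩
    rw [h1, Finset.sum_range_succ]
    have h2 := H96RX.rk_submod (V := Fin n → ZMod 2) D' {x | ∃ i < N, x ∈ Er i} (Er N)
    omega

private theorem Tc_exists {n N D' : ℕ} (G' : Finset (Finset (Fin n))) (hG' : ∀ T ∈ G', T.card ≤ D')
    (Er : ℕ → Set (Fin n → ZMod 2))
    (h : ∑ i ∈ Finset.range N, H96RX.rk (Fin n → ZMod 2) D' (Er i) < G'.card) :
    ∃ φ ∈ Submodule.span (ZMod 2) (mono '' (G' : Set (Finset (Fin n)))), φ ≠ 0 ∧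
      ∀ i < N, ∀ x ∈ Er i, φ x = 0 := by
  obtain ⟨X, hX⟩ : ∃ X : Submodule (ZMod 2) ((Fin n → ZMod 2) → ZMod 2),
      X = Submodule.span (ZMod 2) (mono '' (G' : Set (Finset (Fin n)))) := ⟨_, rfl⟩
  have hfX : Module.finrank (ZMod 2) X = G'.card := by
    have h1 : LinearIndependent (ZMod 2) (fun T : G' => mono (T : Finset (Fin n))) :=
      (mono_indep n).comp (fun T : G' => (T : Finset (Fin n))) Subtype.val_injective
    have h2 := finrank_span_eq_card h1
    have h3 : Set.range (fun T : G' => mono (T : Finset (Fin n))) = mono '' (G' : Set (Finset (Fin n))) := by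
      ext g
      constructor
      · rintro ⟨T, rfl⟩
        exact ⟨T.1, T.2, rfl⟩
      · rintro ⟨T, hT, rfl⟩
        exact ⟨⟨T, hT⟩, rfl⟩
    rw [h3, Fintype.card_coe] at h2
    rw [hX]
    exact h2
  have hXR : X ≤ H96RX.RM (Fin n → ZMod 2) D' := by
    rw [← Pol_eq_RM, hX]
    refine Submodule.span_le.2 ?_
    rintro _ ⟨T, hT, rfl⟩
    exact mono_mem (hG' T hT)
  obtain ⟨U, hU⟩ : ∃ U : Set (Fin n → ZMod 2), U = {x | ∃ i < N, x ∈ Er i} := ⟨_, rfl⟩
  have h2 := Tc_union D' Er N
  rw [← hU] at h2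
  have h3 := H96RX.rk_add (V := Fin n → ZMod 2) D' U
  have h4 := Submodule.finrank_sup_add_finrank_inf_eq X (H96RX.RM (Fin n → ZMod 2) D' ⊓ H96RX.van U)
  have h5 : Module.finrank (ZMod 2) ↥(X ⊔ (H96RX.RM (Fin n → ZMod 2) D' ⊓ H96RX.van U)) ≤
      Module.finrank (ZMod 2) (H96RX.RM (Fin n → ZMod 2) D') :=
    Submodule.finrank_mono (sup_le hXR inf_le_left)
  have h6 : 0 < Module.finrank (ZMod 2) ↥(X ⊓ (H96RX.RM (Fin n → ZMod 2) D' ⊓ H96RX.van U)) := by
    omega
  have h7 : X ⊓ (H96RX.RM (Fin n → ZMod 2) D' ⊓ H96RX.van U) ≠ ⊥ := by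
    intro h8
    rw [h8, finrank_bot] at h6
    exact lt_irrefl _ h6
  obtain ⟨φ, hφ, hφ0⟩ := Submodule.exists_mem_ne_zero_of_ne_bot h7
  refine ⟨φ, ?_, hφ0, fun i hi x hx => ?_⟩
  · rw [← hX]
    exact hφ.1
  · exact hφ.2.2 x (by rw [hU]; exact ⟨i, hi, hx⟩)

theorem thmM {n N e t f w D1 D0 r b : ℕ} {ι : Type} {C : ι → Set (Fin n → ZMod 2)}
    (M : ℕ → Submodule (ZMod 2) (Fn n)) (K : Submodule (ZMod 2) (Fn n))
    (hM : ∀ a c, ∀ g ∈ M a, ∀ h ∈ Pol n c, g * h ∈ M (a + c))
    (hK : ∀ a c, a + c ≤ D0 → ∀ g ∈ K, g ∈ M a → ∀ h ∈ Pol n c, g * h ∈ K)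
    (hK2 : ∀ j a, a + r < D0 → ∀ g ∈ M a, g * indic (C j)ᶜ ∈ K)
    (Gs : Set (Finset (Fin n))) (hG1 : ∀ T ∈ Gs, mono T ∈ M D1)
    (hG2 : Disjoint (Submodule.span (ZMod 2) (mono '' Gs)) K)
    {q : ℝ} (h0 : 0 < q) (h1 : q < 1) (hb : b = e * w + t)
    (hE1 : D1 + (f + 1) * b + r < D0)
    (A : ℕ → Set (Fin n → ZMod 2))
    (hA : ∀ i < N, ∃ (P : Set ((Fin n → ZMod 2) → ZMod 2)) (h : (Fin n → ZMod 2) → ZMod 2),
      (∀ p ∈ P, p ∈ Pol n e) ∧ h ∈ Pol n t ∧ A i = {x | (∀ p ∈ P, p x = 0) ∧ h x = 0})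
    (hline : ∀ i < N, (∃ j, A i ⊆ (C j)ᶜ) ∨
      ∃ K : Finset ℕ, K.card ≤ f ∧ (∀ j ∈ K, j < i) ∧ ∀ x ∈ A i, ∃ j ∈ K, x ∈ A j)
    (hlast : ∃ i < N, A i = Set.univ) (D' : ℕ) :
    (((Finset.univ.filter (fun T : Finset (Fin n) => T.card = D' ∧ T ∈ Gs)).card : ℝ)) * q ^ D' ≤
      N * ((1 - q ^ e / 2) ^ w * (1 + q) ^ n) := by
  have hE2 : (f + 1) * b = f * b + b := by ring
  have hch : ∀ i, ∃ (a : (Fin n → ZMod 2) → ZMod 2) (Er : Set (Fin n → ZMod 2)), i < N →
      a ∈ Pol n b ∧ (∀ x, x ∉ Er → indic (A i) x = a x) ∧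
        H96RX.Om (Fin n → ZMod 2) q Er ≤ (1 - q ^ e / 2) ^ w * (1 + q) ^ n := by
    intro i
    by_cases hi : i < N
    · obtain ⟨P, h, hP, hh, hAi⟩ := hA i hi
      obtain ⟨a0, ha0, ha1, hOm⟩ := approx w h0.le h1 P hP
      obtain ⟨c1, hc1, hc1x⟩ : ∃ c1 : (Fin n → ZMod 2) → ZMod 2, c1 ∈ Pol n t ∧ ∀ x, c1 x = 1 :=
        ⟨fun _ => 1, const_mem 1, fun _ => rfl⟩
      refine ⟨a0 * (c1 + h), {x | ¬ (∀ p ∈ P, p x = 0) ∧ a0 x ≠ 0}, fun _ => ⟨?_, ?_, hOm⟩⟩
      · rw [hb]
        exact Pol_mul ha0 (Submodule.add_mem _ hc1 hh)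
      · intro x hx
        rw [Pi.mul_apply, Pi.add_apply, hc1x]
        by_cases hp : ∀ p ∈ P, p x = 0
        · rw [ha1 x hp, one_mul]
          unfold indic
          rcases Tc_zmod (h x) with h2 | h2
          · rw [if_pos (by rw [hAi]; exact ⟨hp, h2⟩), h2, add_zero]
          · rw [if_neg (by rw [hAi]; rintro ⟨_, h3⟩; rw [h2] at h3; exact one_ne_zero h3), h2]
            decide
        · have h3 : a0 x = 0 := by
            by_contra h4
            exact hx ⟨hp, h4⟩
          rw [h3, zero_mul]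
          unfold indic
          exact if_neg (by rw [hAi]; rintro ⟨h4, _⟩; exact hp h4)
    · exact ⟨0, ∅, fun h => absurd h hi⟩
  choose a Er hC using hch
  obtain ⟨G', hG'⟩ : ∃ G' : Finset (Finset (Fin n)),
      G' = Finset.univ.filter (fun T : Finset (Fin n) => T.card = D' ∧ T ∈ Gs) := ⟨_, rfl⟩
  rw [← hG']
  have hG'm : ∀ T, T ∈ G' ↔ T.card = D' ∧ T ∈ Gs := by
    intro T
    rw [hG', Finset.mem_filter]
    exact ⟨fun h => h.2, fun h => ⟨Finset.mem_univ _, h⟩⟩
  have claim : G'.card ≤ ∑ i ∈ Finset.range N, H96RX.rk (Fin n → ZMod 2) D' (Er i) := by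
    by_contra hcon
    obtain ⟨φ, hφX, hφ0, hφE⟩ := Tc_exists G' (fun T hT => ((hG'm T).1 hT).1.le) Er (not_le.1 hcon)
    apply hφ0
    have hφG : φ ∈ Submodule.span (ZMod 2) (mono '' Gs) := by
      refine (Submodule.span_mono (Set.image_mono ?_)) hφX
      intro T hT
      exact ((hG'm T).1 hT).2
    have hφM : φ ∈ M D1 := by
      refine (Submodule.span_le.2 ?_) hφG
      rintro _ ⟨T, hT, rfl⟩
      exact hG1 T hT
    have heq : ∀ i < N, φ * indic (A i) = φ * a i := by
      intro i hi
      funext x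
      rw [Pi.mul_apply, Pi.mul_apply]
      by_cases hx : x ∈ Er i
      · rw [hφE i hi x hx, zero_mul, zero_mul]
      · rw [(hC i hi).2.1 x hx]
    have hMa : ∀ i < N, φ * a i ∈ M (D1 + b) := fun i hi => hM _ _ φ hφM _ (hC i hi).1
    have hPC : ∀ i, i < N → φ * a i ∈ K := by
      intro i
      induction i using Nat.strong_induction_on with
      | _ i ih =>
        intro hi
        rcases hline i hi with ⟨j, hj⟩ | ⟨Q, hQf, hQi, hcov⟩
        · have h2 : φ * a i = (φ * a i) * indic (C j)ᶜ := by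
            funext x
            rw [← heq i hi, Pi.mul_apply, Pi.mul_apply, Pi.mul_apply]
            unfold indic
            by_cases hx : x ∈ A i
            · rw [if_pos hx, if_pos (hj hx), mul_one, mul_one]
            · rw [if_neg hx, mul_zero, zero_mul]
          rw [h2]
          exact hK2 j (D1 + b) (by omega) _ (hMa i hi)
        · have hPr : ∀ K' : Finset ℕ, (∀ j ∈ K', j < i) →
              (∏ j ∈ K', (1 + a j)) ∈ Pol n (b * K'.card) := by
            intro K'
            induction K' using Finset.induction_on with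
            | empty =>
              intro _
              rw [Finset.prod_empty]
              exact const_mem 1
            | insert j K' hjK ihK =>
              intro hlt
              rw [Finset.prod_insert hjK, Finset.card_insert_of_notMem hjK, Nat.mul_succ, add_comm (b * K'.card) b]
              have hjN : j < N := (hlt j (Finset.mem_insert_self j K')).trans hi
              refine Pol_mul (Submodule.add_mem _ (const_mem 1) (hC j hjN).1) ?_
              exact ihK fun l hl => hlt l (Finset.mem_insert_of_mem hl)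
          have hstep : ∀ K' : Finset ℕ, (∀ j ∈ K', j < i) → K'.card ≤ f →
              φ * a i * (1 + ∏ j ∈ K', (1 + a j)) ∈ K := by
            intro K'
            induction K' using Finset.induction_on with
            | empty =>
              intro _ _
              have h3 : φ * a i * (1 + ∏ j ∈ (∅ : Finset ℕ), (1 + a j)) = 0 := by
                funext x
                have h4 : (1 : ZMod 2) + 1 = 0 := by decide
                rw [Finset.prod_empty]
                simp only [Pi.mul_apply, Pi.add_apply, Pi.one_apply, Pi.zero_apply, h4, mul_zero]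
              rw [h3]
              exact Submodule.zero_mem _
            | insert j K' hjK ihK =>
              intro hlt hcard
              rw [Finset.card_insert_of_notMem hjK] at hcard
              have hji : j < i := hlt j (Finset.mem_insert_self j K')
              have hjN : j < N := hji.trans hi
              have hlt' : ∀ l ∈ K', l < i := fun l hl => hlt l (Finset.mem_insert_of_mem hl)
              have h3 : φ * a i * (1 + ∏ l ∈ insert j K', (1 + a l)) =
                  φ * a i * (1 + ∏ l ∈ K', (1 + a l)) + φ * a j * (a i * ∏ l ∈ K', (1 + a l)) := by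
                rw [Finset.prod_insert hjK]
                ring
              rw [h3]
              refine Submodule.add_mem _ (ihK hlt' (by omega)) ?_
              refine hK (D1 + b) (b + b * K'.card) ?_ _ (ih j hji hjN) (hMa j hjN) _
                (Pol_mul (hC i hi).1 (hPr K' hlt'))
              have h4 : b * K'.card + b ≤ b * f := by
                rw [← Nat.mul_succ]
                exact Nat.mul_le_mul_left _ hcard
              have h5 : b * f = f * b := Nat.mul_comm _ _
              omega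
          have h3 : φ * a i = φ * a i * (1 + ∏ j ∈ Q, (1 + a j)) := by
            funext x
            by_cases hφx : φ x = 0
            · simp only [Pi.mul_apply, hφx, zero_mul]
            · have hEr : ∀ l < N, x ∉ Er l := fun l hl hx => hφx (hφE l hl x hx)
              simp only [Pi.mul_apply, Pi.add_apply, Pi.one_apply, Finset.prod_apply]
              rw [← (hC i hi).2.1 x (hEr i hi)]
              by_cases hx : x ∈ A i
              · obtain ⟨j, hj, hxj⟩ := hcov x hx
                have hjN : j < N := (hQi j hj).trans hi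
                have h4 : (1 : ZMod 2) + a j x = 0 := by
                  rw [← (hC j hjN).2.1 x (hEr j hjN)]
                  unfold indic
                  rw [if_pos hxj]
                  decide
                rw [Finset.prod_eq_zero hj h4, add_zero, mul_one]
              · have h4 : indic (A i) x = 0 := if_neg hx
                rw [h4, mul_zero, zero_mul]
          rw [h3]
          exact hstep Q hQi hQf
    obtain ⟨i, hi, hAi⟩ := hlast
    have h2 : φ * a i = φ := by
      rw [← heq i hi]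
      funext x
      rw [Pi.mul_apply]
      unfold indic
      rw [if_pos (by rw [hAi]; exact Set.mem_univ x), mul_one]
    have h3 : φ ∈ K := by
      rw [← h2]
      exact hPC i hi
    exact Submodule.disjoint_def.1 hG2 φ hφG h3
  have hsum : ((∑ i ∈ Finset.range N, H96RX.rk (Fin n → ZMod 2) D' (Er i) : ℕ) : ℝ) * q ^ D' ≤
      N * ((1 - q ^ e / 2) ^ w * (1 + q) ^ n) := by
    rw [Nat.cast_sum, Finset.sum_mul]
    calc _ ≤ ∑ _i ∈ Finset.range N, ((1 - q ^ e / 2) ^ w * (1 + q) ^ n) := by
          refine Finset.sum_le_sum fun i hi => ?_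
          have hiN := Finset.mem_range.1 hi
          have h2 := H96RX.pow_mul_rk_le (V := Fin n → ZMod 2) h0.le h1 D' (Er i)
          rw [mul_comm]
          exact h2.trans (hC i hiN).2.2
      _ = N * ((1 - q ^ e / 2) ^ w * (1 + q) ^ n) := by
          rw [Finset.sum_const, Finset.card_range, nsmul_eq_mul]
  refine le_trans ?_ hsum
  exact mul_le_mul_of_nonneg_right (by exact_mod_cast claim) (pow_nonneg h0.le _)

end H84BA
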