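import Pool.Agent.H84.BA.Op
import Pool.Agent.H84.BA.Tc
import Pool.Agent.H84.BA.Mp
import Pool.Agent.H84.BA.Br
import Pool.Agent.H98.DH.MU
import Pool.Agent.H81.BX.Wt

/-!
The lower bound for a table of linear maps with good expansion, and its numerical form (helper84).
-/

set_option autoImplicit false
open scoped Classical

namespace H84BA

open H81BX H98DH H96RE H91RE

theorem core0' {m s l α e f t w B E N : ℕ} (c : Fin m → Fin s → Fin l → ZMod 2) (hc : (phq c α).Exp 4 B)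
    (hEB : 8 * E ≤ B) {q : ℝ} (h0 : 0 < q) (h1 : q < 1) (hE1 : (f + 1) * (e * w + t) + 2 < E)
    (A : ℕ → Set (Fin (m * s) → ZMod 2))
    (hA : ∀ i < N, ∃ (P : Set ((Fin (m * s) → ZMod 2) → ZMod 2)) (h : (Fin (m * s) → ZMod 2) → ZMod 2),
      (∀ p ∈ P, p ∈ Pol (m * s) e) ∧ h ∈ Pol (m * s) t ∧ A i = {x | (∀ p ∈ P, p x = 0) ∧ h x = 0})
    (hline : ∀ i < N, (∃ a b, a ≠ b ∧ ∀ x ∈ A i, pos c a (zz x a) = pos c b (zz x b)) ∨
      ∃ Q : Finset ℕ, Q.card ≤ f ∧ (∀ j ∈ Q, j < i) ∧ ∀ x ∈ A i, ∃ j ∈ Q, x ∈ A j)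
    (hlast : ∃ i < N, A i = Set.univ) :
    ∑ T ∈ Finset.univ.filter (fun T : Finset (Fin (m * s)) => T ∈ Gd m s α), q ^ T.card ≤
      ((m * s : ℕ) + 1) * (N * ((1 - q ^ e / 2) ^ w * (1 + q) ^ (m * s))) := by
  obtain ⟨K, hK1, hK2, hK3⟩ := op (E := E) c hc (by omega)
  have hGd : Gd m s α = {T : Finset (Fin (m * s)) | heavy (bk m s) (Lt m s α) T = ∅} := by
    ext T
    constructor
    · intro h
      refine Finset.filter_false_of_mem fun v _ => ?_
      intro h2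
      exact h2 (h v)
    · intro h v
      have h' : heavy (bk m s) (Lt m s α) T = ∅ := h
      by_contra h2
      have h3 : v ∈ heavy (bk m s) (Lt m s α) T := Finset.mem_filter.2 ⟨Finset.mem_univ _, h2⟩
      rw [h'] at h3
      exact Finset.notMem_empty _ h3
  obtain ⟨C, hCd⟩ : ∃ C : {p : Fin m × Fin m // p.1 ≠ p.2} → Set (Fin (m * s) → ZMod 2),
      C = fun p => {x | pos c p.1.1 (zz x p.1.1) ≠ pos c p.1.2 (zz x p.1.2)} := ⟨_, rfl⟩
  obtain ⟨S, hSd⟩ : ∃ S : {p : Fin m × Fin m // p.1 ≠ p.2} → Finset (Fin m), S = fun p => {p.1.1, p.1.2} :=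
    ⟨_, rfl⟩
  have hS2 : ∀ p, (S p).card ≤ 2 := by
    intro p
    rw [hSd]
    exact Finset.card_le_two
  have hC : ∀ j x y, (∀ i, bk m s i ∈ S j → x i = y i) → x ∈ C j → y ∈ C j := by
    intro j x y hxy hx
    rw [hCd] at hx ⊢
    have e1 : zz x j.1.1 = zz y j.1.1 := zz_congr x y _ fun i hi => hxy i (by
      rw [hSd]
      show (finProdFinEquiv.symm i).1 ∈ ({j.1.1, j.1.2} : Finset (Fin m))
      rw [hi]
      simp)
    have e2 : zz x j.1.2 = zz y j.1.2 := zz_congr x y _ fun i hi => hxy i (by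
      rw [hSd]
      show (finProdFinEquiv.symm i).1 ∈ ({j.1.1, j.1.2} : Finset (Fin m))
      rw [hi]
      simp)
    show pos c j.1.1 (zz y j.1.1) ≠ pos c j.1.2 (zz y j.1.2)
    rw [← e1, ← e2]
    exact hx
  have hCK : ∀ j, indic (C j)ᶜ ∈ K := by
    intro j
    refine hK1 (S j) ((hS2 j).trans (by omega)) _ (indic_C_mem hC j) ?_
    intro x hx
    have h2 : x ∈ C j := by
      rw [hCd]
      refine hx j.1.1 ?_ j.1.2 ?_ j.2
      · rw [hSd]
        simp
      · rw [hSd]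
        simp
    unfold indic
    exact if_neg fun h => h h2
  refine weight_bound (Gd m s α) fun D' => ?_
  refine thmM (C := C) (f := f) (e := e) (t := t) (w := w) (r := 2) (D0 := E) (D1 := 0) (b := e * w + t) (fun a => Mh (bk m s) (Lt m s α) a) K
    (fun a c g hg h hh => Mh_mul lt_down hg hh)
    (fun a c hac g hg hg' h hh => K_mul lt_down hK2 hac hg hg' hh)
    (fun j a ha g hg => K_ind lt_down hK2 hC (hCK j) (lt_of_le_of_lt (Nat.add_le_add_left (hS2 j) a) ha) hg)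
    (Gd m s α) ?_ ?_ h0 h1 rfl (by omega) A hA ?_ hlast D'
  · intro T hT
    rw [hGd] at hT
    have hT' : heavy (bk m s) (Lt m s α) T = ∅ := hT
    refine Submodule.subset_span ⟨T, ?_, rfl⟩
    show (heavy (bk m s) (Lt m s α) T).card ≤ 0
    rw [hT']
    simp
  · rw [hGd]
    exact hK3
  · intro i hi
    rcases hline i hi with ⟨a, b, hab, h2⟩ | h2
    · refine Or.inl ⟨⟨(a, b), hab⟩, fun x hx => ?_⟩
      rw [hCd]
      intro h3
      exact h3 (h2 x hx)
    · exact Or.inr h2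

theorem core1' {m s l α e f t w B E N : ℕ} (c : Fin m → Fin s → Fin l → ZMod 2) (hc : (phq c α).Exp 4 B)
    (hEB : 8 * E ≤ B) {q : ℝ} (h0 : 0 < q) (h1 : q < 1) (hE1 : (f + 1) * (e * w + t) + 2 < E)
    (hx : (m : ℝ) * (2 ^ s * q ^ (α + 1)) ≤ 1 / 2)
    (A : ℕ → Set (Fin (m * s) → ZMod 2))
    (hA : ∀ i < N, ∃ (P : Set ((Fin (m * s) → ZMod 2) → ZMod 2)) (h : (Fin (m * s) → ZMod 2) → ZMod 2),
      (∀ p ∈ P, p ∈ Pol (m * s) e) ∧ h ∈ Pol (m * s) t ∧ A i = {x | (∀ p ∈ P, p x = 0) ∧ h x = 0})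
    (hline : ∀ i < N, (∃ a b, a ≠ b ∧ ∀ x ∈ A i, pos c a (zz x a) = pos c b (zz x b)) ∨
      ∃ Q : Finset ℕ, Q.card ≤ f ∧ (∀ j ∈ Q, j < i) ∧ ∀ x ∈ A i, ∃ j ∈ Q, x ∈ A j)
    (hlast : ∃ i < N, A i = Set.univ) :
    Real.exp (q ^ e * w / 2) ≤ 2 * ((m * s : ℕ) + 1) * N := by
  have h2 := core0' c hc hEB h0 h1 hE1 A hA hline hlast
  rcases Nat.eq_zero_or_pos m with hm0 | hm0
  · -- no pigeons
    subst hm0
    have h3 : ∑ T ∈ Finset.univ.filter (fun T : Finset (Fin (0 * s)) => T ∈ Gd 0 s α), q ^ T.card = 1 := by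
      rw [sum_Gd, pow_zero]
    rw [h3, Nat.zero_mul, pow_zero, mul_one] at h2
    have h4 : (1 - q ^ e / 2) ^ w ≤ Real.exp (-(q ^ e / 2 * w)) := by
      have hqe : q ^ e ≤ 1 := pow_le_one₀ h0.le h1.le
      calc (1 - q ^ e / 2) ^ w ≤ Real.exp (-(q ^ e / 2)) ^ w := by
            refine pow_le_pow_left₀ (by linarith) ?_ w
            have := Real.add_one_le_exp (-(q ^ e / 2))
            linarith
        _ = Real.exp (-(q ^ e / 2 * w)) := by
            rw [← Real.exp_nat_mul]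
            congr 1
            ring
    have hN0 : (0 : ℝ) ≤ N := Nat.cast_nonneg N
    have h5 : 1 ≤ N * Real.exp (-(q ^ e / 2 * w)) := by
      refine h2.trans ?_
      push_cast
      nlinarith
    have h6 : Real.exp (q ^ e * w / 2) ≤ N := by
      have h7 := mul_le_mul_of_nonneg_right h5 (Real.exp_pos (q ^ e * w / 2)).le
      rw [one_mul, mul_assoc, ← Real.exp_add] at h7
      have h8 : -(q ^ e / 2 * w) + q ^ e * w / 2 = 0 := by ring
      rw [h8, Real.exp_zero, mul_one] at h7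
      exact h7
    rw [Nat.zero_mul]
    push_cast
    linarith
  have hm1 : (1 : ℝ) ≤ m := by exact_mod_cast hm0
  obtain ⟨x, hxd⟩ : ∃ x : ℝ, x = 2 ^ s * q ^ (α + 1) := ⟨_, rfl⟩
  rw [← hxd] at hx
  have hx0 : 0 ≤ x := by
    rw [hxd]
    positivity
  have hx1 : x ≤ 1 / 2 := by nlinarith
  have hZ1 : (1 + q) ^ (m * s) * (1 - x) ^ m ≤
      ∑ T ∈ Finset.univ.filter (fun T : Finset (Fin (m * s)) => T ∈ Gd m s α), q ^ T.card := by
    rw [sum_Gd, mul_comm m s, pow_mul, ← mul_pow, hxd]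
    refine pow_le_pow_left₀ ?_ (block_weight h0.le h1.le) m
    rw [← hxd]
    have h3 : (0 : ℝ) ≤ 1 - x := by linarith
    positivity
  have h3 : (1 - x) ^ m ≤ ((m * s : ℕ) + 1) * N * (1 - q ^ e / 2) ^ w := by
    have h4 := hZ1.trans h2
    have h5 : (1 + q) ^ (m * s) * (1 - x) ^ m ≤
        (1 + q) ^ (m * s) * (((m * s : ℕ) + 1) * N * (1 - q ^ e / 2) ^ w) := by
      refine h4.trans (le_of_eq ?_)
      ring
    exact le_of_mul_le_mul_left h5 (by positivity)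
  have h4 : 1 / 2 ≤ (1 - x) ^ m := by
    have h5 := one_add_mul_le_pow (a := -x) (by linarith) m
    have h6 : 1 + (m : ℝ) * -x = 1 - m * x := by ring
    rw [h6, ← sub_eq_add_neg] at h5
    linarith
  have h5 : (1 - q ^ e / 2) ^ w ≤ Real.exp (-(q ^ e / 2 * w)) := by
    have hqe : q ^ e ≤ 1 := pow_le_one₀ h0.le h1.le
    calc (1 - q ^ e / 2) ^ w ≤ Real.exp (-(q ^ e / 2)) ^ w := by
          refine pow_le_pow_left₀ (by linarith) ?_ w
          have := Real.add_one_le_exp (-(q ^ e / 2))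
          linarith
      _ = Real.exp (-(q ^ e / 2 * w)) := by
          rw [← Real.exp_nat_mul]
          congr 1
          ring
  have hN0 : (0 : ℝ) ≤ N := Nat.cast_nonneg N
  have h6 : 1 / 2 ≤ ((m * s : ℕ) + 1) * N * Real.exp (-(q ^ e / 2 * w)) :=
    h4.trans (h3.trans (mul_le_mul_of_nonneg_left h5 (by positivity)))
  have h7 := mul_le_mul_of_nonneg_right h6 (Real.exp_pos (q ^ e * w / 2)).le
  rw [mul_assoc ((((m * s : ℕ) : ℝ) + 1) * N), ← Real.exp_add] at h7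
  have h8 : -(q ^ e / 2 * w) + q ^ e * w / 2 = 0 := by ring
  rw [h8, Real.exp_zero, mul_one] at h7
  linarith

end H84BA
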