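import Pool.Agent.H81.BX.Php
import Pool.Agent.H98.DH.OB

/-!
The bit pigeonhole principle restricted by linear maps of growing dimension (helper84): a pigeon of `J` is free if fewer than `2 ^ (s - α)` of its
parameters lead to a hole which another pigeon of `J` can use.
-/

set_option autoImplicit false
open scoped Classical

namespace H84BA

open H81BX

variable {m s l : ℕ}

/-- The parameters of the pigeon `a` which lead to a hole that can be used by another pigeon of `J`. -/
noncomputable def Cov (c : Fin m → Fin s → Fin l → ZMod 2) (J : Finset (Fin m)) (a : Fin m) :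
    Finset (Fin s → ZMod 2) :=
  Finset.univ.filter fun u => ∃ b ∈ J, b ≠ a ∧ ∃ v, pos c a u = pos c b v

/-- The pigeon `a` is free in `J`. -/
def FreeA (c : Fin m → Fin s → Fin l → ZMod 2) (α : ℕ) (J : Finset (Fin m)) (a : Fin m) : Prop :=
  (Cov c J a).card < 2 ^ (s - α)

theorem cov_mono (c : Fin m → Fin s → Fin l → ZMod 2) {J J' : Finset (Fin m)} (h : J' ⊆ J) (a : Fin m) :
    Cov c J' a ⊆ Cov c J a := by
  intro u hu
  obtain ⟨-, b, hb, h1⟩ := Finset.mem_filter.1 hu
  exact Finset.mem_filter.2 ⟨Finset.mem_univ _, b, h hb, h1⟩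

theorem free_mono (c : Fin m → Fin s → Fin l → ZMod 2) {α : ℕ} {J J' : Finset (Fin m)} (h : J' ⊆ J) {a : Fin m}
    (ha : FreeA c α J a) : FreeA c α J' a :=
  lt_of_le_of_lt (Finset.card_le_card (cov_mono c h a)) ha

/-- the variables of the block `a` of the merged point -/
theorem zz_merge_self (z x : Fin (m * s) → ZMod 2) (a : Fin m) :
    zz (fun i => if (finProdFinEquiv.symm i).1 = a then z i else x i) a = zz z a := by
  refine zz_congr _ _ a fun i hi => if_pos hi

theorem zz_merge_ne (z x : Fin (m * s) → ZMod 2) {a b : Fin m} (h : b ≠ a) :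
    zz (fun i => if (finProdFinEquiv.symm i).1 = a then z i else x i) b = zz x b := by
  refine zz_congr _ _ b fun i hi => if_neg ?_
  rw [hi]
  exact h

/-- Placing the pigeon `a` in a hole which no other pigeon of `J` can use. -/
theorem sat_merge (c : Fin m → Fin s → Fin l → ZMod 2) {J : Finset (Fin m)} {a : Fin m} (z x : Fin (m * s) → ZMod 2)
    (hz : zz z a ∉ Cov c J a)
    (hx : ∀ b ∈ J.erase a, ∀ d ∈ J.erase a, b ≠ d → pos c b (zz x b) ≠ pos c d (zz x d)) :
    ∀ b ∈ J, ∀ d ∈ J, b ≠ d →
      pos c b (zz (fun i => if (finProdFinEquiv.symm i).1 = a then z i else x i) b) ≠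
      pos c d (zz (fun i => if (finProdFinEquiv.symm i).1 = a then z i else x i) d) := by
  have hz' : ∀ b ∈ J, b ≠ a → ∀ v, pos c a (zz z a) ≠ pos c b v := by
    intro b hb hba v h
    exact hz (Finset.mem_filter.2 ⟨Finset.mem_univ _, b, hb, hba, v, h⟩)
  intro b hb d hd hbd
  by_cases hba : b = a
  · subst hba
    rw [zz_merge_self, zz_merge_ne z x (Ne.symm hbd)]
    exact hz' d hd (Ne.symm hbd) _
  · by_cases hda : d = a
    · subst hda
      rw [zz_merge_self, zz_merge_ne z x hbd]
      exact fun h => hz' b hb hbd _ h.symm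
    · rw [zz_merge_ne z x hba, zz_merge_ne z x hda]
      exact hx b (Finset.mem_erase.2 ⟨hba, hb⟩) d (Finset.mem_erase.2 ⟨hda, hd⟩) hbd

theorem exists_uncov (c : Fin m → Fin s → Fin l → ZMod 2) {α : ℕ} {J : Finset (Fin m)} {a : Fin m}
    (h : FreeA c α J a) : ∃ u, u ∉ Cov c J a := by
  by_contra hcon
  push Not at hcon
  have h1 : Cov c J a = Finset.univ := Finset.eq_univ_iff_forall.2 hcon
  unfold FreeA at h
  rw [h1, Finset.card_univ, Fintype.card_fun, ZMod.card, Fintype.card_fin] at h
  exact absurd (Nat.pow_le_pow_right (by norm_num) (Nat.sub_le s α)) (not_le.2 h)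

/-- The frame. -/
noncomputable def phq (c : Fin m → Fin s → Fin l → ZMod 2) (α : ℕ) : Frame (m * s) m where
  blk i := (finProdFinEquiv.symm i).1
  Sat J := {x | ∀ a ∈ J, ∀ b ∈ J, a ≠ b → pos c a (zz x a) ≠ pos c b (zz x b)}
  bd J := J.filter (FreeA c α J)
  sat_mono := fun J J' h x hx a ha b hb hab => hx a (h ha) b (h hb) hab
  sat_loc := fun J x y h hx a ha b hb hab => by
    rw [← zz_congr x y a fun i hi => h i (hi ▸ ha), ← zz_congr x y b fun i hi => h i (hi ▸ hb)]
    exact hx a ha b hb hab
  bd_sub := fun J => Finset.filter_subset _ _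
  bd_mono := fun J J' a hJ haJ' ha =>
    Finset.mem_filter.2 ⟨haJ', free_mono c hJ (Finset.mem_filter.1 ha).2⟩
  sat_esc := fun J a ha => by
    obtain ⟨u, hu⟩ := exists_uncov c (Finset.mem_filter.1 ha).2
    refine ⟨fun i => u (finProdFinEquiv.symm i).2, fun x hx => ?_⟩
    have h1 : zz (fun i : Fin (m * s) => u (finProdFinEquiv.symm i).2) a = u := by
      funext t
      change u (finProdFinEquiv.symm (finProdFinEquiv (a, t))).2 = u t
      rw [Equiv.symm_apply_apply]
    exact sat_merge c _ x (by rw [h1]; exact hu) hx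

end H84BA
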