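import Pool.Agent.H84.BA.Core

/-!
The lower bound with concrete parameters: `s = 24 k`, `α = 12 k`, `q = 2 ^ (-k)` (helper84).
-/

set_option autoImplicit false
open scoped Classical

namespace H84BA

open H81BX H98DH H96RE H91RE

theorem core2' {k e d l m f t N : ℕ} (hk : 3 ≤ k) (he : e ≤ 2 ^ k) (hl : l = (52 + e) * k + 6 + d)
    (hm : m ≤ 2 ^ (k ^ 2)) (hf : f + 1 ≤ 2 ^ k) (ht : t ≤ 2 ^ (e * k + 1 + d))
    (hex : ∀ c : Fin m → Fin (24 * k) → Fin l → ZMod 2, ∃ A : ℕ → Set (Fin (m * (24 * k)) → ZMod 2),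
      (∀ i < N, ∃ (P : Set ((Fin (m * (24 * k)) → ZMod 2) → ZMod 2)) (h : (Fin (m * (24 * k)) → ZMod 2) → ZMod 2),
        (∀ p ∈ P, p ∈ Pol (m * (24 * k)) e) ∧ h ∈ Pol (m * (24 * k)) t ∧ A i = {x | (∀ p ∈ P, p x = 0) ∧ h x = 0}) ∧
      (∀ i < N, (∃ a b, a ≠ b ∧ ∀ x ∈ A i, pos c a (zz x a) = pos c b (zz x b)) ∨
        ∃ Q : Finset ℕ, Q.card ≤ f ∧ (∀ j ∈ Q, j < i) ∧ ∀ x ∈ A i, ∃ j ∈ Q, x ∈ A j) ∧
      ∃ i < N, A i = Set.univ) :
    Real.exp ((2 : ℝ) ^ d) ≤ 2 * ((m * (24 * k) : ℕ) + 1) * N := by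
  have hkk : 9 ≤ k ^ 2 := by nlinarith
  have hl2 : l = 52 * k + e * k + 6 + d := by rw [hl]; ring
  obtain ⟨c, hc⟩ := exists_maps' (m := m) (s := 24 * k) (l := l) (α := 12 * k) (r := k)
    (B := 2 ^ (2 * k + e * k + 6 + d)) (by omega) (by omega) (by
      have h1 : 2 ^ (2 * (24 * k)) * 2 ^ (2 * k + e * k + 6 + d) = 2 ^ (50 * k + e * k + 6 + d) := by
        rw [← pow_add]
        congr 1
        ring
      rw [h1]
      have h2 : (2 ^ l) ^ k = 2 ^ (2 * k * k) * (2 ^ (50 * k + e * k + 6 + d)) ^ k := by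
        rw [← pow_mul, ← pow_mul, ← pow_add, hl2]
        congr 1
        ring
      rw [h2, ← mul_assoc]
      refine Nat.mul_le_mul_right _ ?_
      calc 48 * m ≤ 2 ^ 6 * 2 ^ (k ^ 2) := Nat.mul_le_mul (by norm_num) hm
        _ = 2 ^ (6 + k ^ 2) := (pow_add _ _ _).symm
        _ ≤ 2 ^ (2 * k * k) := Nat.pow_le_pow_right (by norm_num) (by nlinarith))
  obtain ⟨A, hA, hline, hlast⟩ := hex c
  have h1 := core1' (w := 2 ^ (e * k + 1 + d)) (E := 2 ^ (2 * k + e * k + 3 + d)) (q := (1 / 2 : ℝ) ^ k) c hc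
    (by
      have h2 : 8 * 2 ^ (2 * k + e * k + 3 + d) = 2 ^ (2 * k + e * k + 6 + d) := by
        rw [show (8 : ℕ) = 2 ^ 3 by norm_num, ← pow_add]
        congr 1
        ring
      exact h2.le)
    (by positivity)
    (pow_lt_one₀ (by norm_num) (by norm_num) (by omega))
    (by
      have h2 : e * 2 ^ (e * k + 1 + d) + t ≤ 2 ^ (k + e * k + 2 + d) := by
        have h3 : e * 2 ^ (e * k + 1 + d) ≤ 2 ^ (k + e * k + 1 + d) := by
          calc e * 2 ^ (e * k + 1 + d) ≤ 2 ^ k * 2 ^ (e * k + 1 + d) := Nat.mul_le_mul_right _ he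
            _ = 2 ^ (k + e * k + 1 + d) := by
              rw [← pow_add]
              congr 1
              ring
        have h4 : t ≤ 2 ^ (k + e * k + 1 + d) := ht.trans (Nat.pow_le_pow_right (by norm_num) (by omega))
        have h5 : 2 ^ (k + e * k + 2 + d) = 2 * 2 ^ (k + e * k + 1 + d) := by
          rw [← pow_succ']
          congr 1
          ring
        omega
      have h3 : (f + 1) * (e * 2 ^ (e * k + 1 + d) + t) ≤ 2 ^ (2 * k + e * k + 2 + d) := by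
        calc (f + 1) * (e * 2 ^ (e * k + 1 + d) + t) ≤ 2 ^ k * 2 ^ (k + e * k + 2 + d) := Nat.mul_le_mul hf h2
          _ = 2 ^ (2 * k + e * k + 2 + d) := by
              rw [← pow_add]
              congr 1
              ring
      have h4 : 2 ^ (2 * k + e * k + 3 + d) = 2 * 2 ^ (2 * k + e * k + 2 + d) := by
        rw [← pow_succ']
        congr 1
        ring
      have h5 : 4 ≤ 2 ^ (2 * k + e * k + 2 + d) := by
        calc 4 = 2 ^ 2 := by norm_num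
          _ ≤ 2 ^ (2 * k + e * k + 2 + d) := Nat.pow_le_pow_right (by norm_num) (by omega)
      omega)
    (by
      have h2 : (m : ℝ) ≤ 2 ^ (k ^ 2) := by exact_mod_cast hm
      have h3 : ((1 / 2 : ℝ) ^ k) ^ (12 * k + 1) = 1 / 2 ^ (k * (12 * k + 1)) := by
        rw [← pow_mul, one_div, inv_pow, one_div]
      rw [h3, mul_one_div, mul_div_assoc', div_le_div_iff₀ (by positivity) (by norm_num)]
      calc (m : ℝ) * 2 ^ (24 * k) * 2 ≤ 2 ^ (k ^ 2) * 2 ^ (24 * k) * 2 := by gcongr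
        _ = 2 ^ (k ^ 2 + 24 * k + 1) := by
          rw [pow_add, pow_add, pow_one]
        _ ≤ 2 ^ (k * (12 * k + 1)) := by
          refine pow_le_pow_right₀ (by norm_num) ?_
          nlinarith
        _ = 1 * 2 ^ (k * (12 * k + 1)) := by ring)
    A hA hline hlast
  have h2 : ((1 / 2 : ℝ) ^ k) ^ e * ((2 ^ (e * k + 1 + d) : ℕ) : ℝ) / 2 = 2 ^ d := by
    rw [← pow_mul, one_div, inv_pow]
    push_cast
    have h3 : (2 : ℝ) ^ (e * k + 1 + d) = 2 ^ (k * e) * 2 * 2 ^ d := by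
      rw [pow_add, pow_add, pow_one, mul_comm e k]
    rw [h3]
    field_simp
  rw [h2] at h1
  exact h1

private theorem rp_mul (a b : ℝ) : (2 : ℝ) ^ a * (2 : ℝ) ^ b = (2 : ℝ) ^ (a + b) :=
  (Real.rpow_add (by norm_num) a b).symm

private theorem rp_le {a b : ℝ} (h : a ≤ b) : (2 : ℝ) ^ a ≤ (2 : ℝ) ^ b :=
  Real.rpow_le_rpow_of_exponent_le (by norm_num) h

private theorem half_le (y : ℝ) (hy : 0 ≤ y) : y ≤ 2 * (2 : ℝ) ^ y := by
  have h1 : (2 : ℝ) ^ y = Real.exp (y * Real.log 2) := by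
    rw [Real.rpow_def_of_pos (by norm_num), mul_comm]
  have h2 := Real.add_one_le_exp (y * Real.log 2)
  have h3 := Real.log_two_gt_d9
  rw [h1]
  nlinarith

private theorem poly_le {L : ℝ} (hL : 100 ≤ L) : 2 * L ^ 2 + L + 6 ≤ 2 ^ (3 * L / 4 - 7) := by
  have h1 := half_le (L / 8) (by linarith)
  have h2 : L ≤ 16 * (2 : ℝ) ^ (L / 8) := by linarith
  have h3 : ((2 : ℝ) ^ (L / 8)) ^ 2 = 2 ^ (L / 4) := by
    rw [pow_two, rp_mul]
    congr 1
    ring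
  have h4 : L ^ 2 ≤ 256 * (2 : ℝ) ^ (L / 4) := by
    calc L ^ 2 ≤ (16 * (2 : ℝ) ^ (L / 8)) ^ 2 := pow_le_pow_left₀ (by linarith) h2 2
      _ = 256 * (2 : ℝ) ^ (L / 4) := by rw [mul_pow, h3]; norm_num
  have h5 : (2 : ℝ) ^ (12 : ℝ) = 4096 := by
    have : (12 : ℝ) = ((12 : ℕ) : ℝ) := by norm_num
    rw [this, Real.rpow_natCast]
    norm_num
  calc 2 * L ^ 2 + L + 6 ≤ 9 * L ^ 2 := by nlinarith
    _ ≤ 4096 * (2 : ℝ) ^ (L / 4) := by
      have : (0 : ℝ) ≤ 2 ^ (L / 4) := by positivity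
      linarith
    _ = 2 ^ (12 + L / 4) := by rw [← h5, rp_mul]
    _ ≤ 2 ^ (3 * L / 4 - 7) := rp_le (by linarith)

/-- The main theorem: the bit pigeonhole principle for every number of pigeons. -/
theorem all_pigeons (e : ℕ) (η : ℝ) (hη : 0 < η) : ∃ δ : ℝ, 0 < δ ∧ ∃ l₀ : ℕ, ∀ l ≥ l₀,
    ∀ m t f N : ℕ, (f : ℝ) ≤ 2 ^ (δ * l) → (t : ℝ) ≤ 2 ^ ((1 - η) * l) →
      BitPigeonhole.Refutes e (BitPigeonhole.DegLE t) f (BitPigeonhole.Different m l) N →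
        ((m : ℝ) ≤ 2 ^ (δ * l ^ 2) → (2 : ℝ) ^ ((2 : ℝ) ^ ((1 - η) * l)) ≤ N) ∧ (2 : ℝ) ^ (δ * l ^ 2) ≤ N := by
  obtain ⟨θ, hθ⟩ : ∃ θ : ℝ, θ = min η (1 / 2) := ⟨_, rfl⟩
  have hθ0 : 0 < θ := by
    rw [hθ]
    exact lt_min hη (by norm_num)
  have hθη : θ ≤ η := by rw [hθ]; exact min_le_left _ _
  have hθ2 : θ ≤ 1 / 2 := by rw [hθ]; exact min_le_right _ _
  have he0 : (0 : ℝ) ≤ e := Nat.cast_nonneg e
  obtain ⟨κ, hκ⟩ : ∃ κ : ℝ, κ = θ / (2 * (52 + e)) := ⟨_, rfl⟩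
  have hκ0 : 0 < κ := by
    rw [hκ]
    positivity
  have hκe : (52 + e) * κ = θ / 2 := by
    rw [hκ]
    field_simp
  have hκ1 : κ ≤ 1 := by nlinarith
  obtain ⟨δ, hδ⟩ : ∃ δ : ℝ, δ = κ ^ 2 / 8 := ⟨_, rfl⟩
  have hδ0 : 0 < δ := by
    rw [hδ]
    positivity
  have hδ1 : δ ≤ 1 := by
    rw [hδ]
    nlinarith
  refine ⟨δ, hδ0, ⌈(e + 5) / κ + 14 / θ + 100⌉₊, fun l hl m t f N hf ht hR => ?_⟩
  obtain ⟨L, hL⟩ : ∃ L : ℝ, L = l := ⟨_, rfl⟩
  have hL0 : (e + 5) / κ + 14 / θ + 100 ≤ L := by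
    rw [hL]
    exact Nat.ceil_le.1 hl
  rw [← hL] at hf ht ⊢
  have hd1 : 0 ≤ (e + 5) / κ := by positivity
  have hd2 : 0 ≤ 14 / θ := by positivity
  have hL100 : 100 ≤ L := by linarith
  have hκL : (e : ℝ) + 5 ≤ κ * L := by
    have h1 : (e + 5) / κ ≤ L := by linarith
    rw [div_le_iff₀ hκ0] at h1
    linarith
  have hθL : 14 ≤ θ * L := by
    have h1 : 14 / θ ≤ L := by linarith
    rw [div_le_iff₀ hθ0] at h1
    linarith
  obtain ⟨k, hk⟩ : ∃ k : ℕ, k = ⌊κ * L⌋₊ := ⟨_, rfl⟩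
  have hkle : (k : ℝ) ≤ κ * L := by
    rw [hk]
    exact Nat.floor_le (by linarith)
  have hkge : κ * L < k + 1 := by
    rw [hk]
    exact Nat.lt_floor_add_one _
  have hk0 : (0 : ℝ) ≤ k := Nat.cast_nonneg k
  have hk3 : 3 ≤ k := by
    have h1 : (3 : ℝ) ≤ k := by linarith
    exact_mod_cast h1
  have hek : e ≤ k := by
    have h1 : (e : ℝ) ≤ k := by linarith
    exact_mod_cast h1
  have hkL : (k : ℝ) ≤ L := by nlinarith
  have hke : (52 + (e : ℝ)) * k ≤ θ / 2 * L := by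
    calc (52 + (e : ℝ)) * k ≤ (52 + e) * (κ * L) := mul_le_mul_of_nonneg_left hkle (by positivity)
      _ = θ / 2 * L := by rw [← hκe]; ring
  have hlk : (52 + e) * k + 6 ≤ l := by
    have h1 : ((52 + e) * k + 6 : ℝ) ≤ l := by
      rw [← hL]
      nlinarith
    exact_mod_cast h1
  obtain ⟨d, hd⟩ := Nat.exists_eq_add_of_le hlk
  have hdR : (d : ℝ) = L - (52 + e) * k - 6 := by
    rw [hL, hd]
    push_cast
    ring
  -- the parameters
  have hf1 : f + 1 ≤ 2 ^ k := by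
    have h1 : ((f : ℝ) + 1) ≤ 2 ^ k := by
      calc (f : ℝ) + 1 ≤ 2 ^ (δ * L) + 2 ^ (δ * L) := by
            have h2 : (1 : ℝ) ≤ 2 ^ (δ * L) := Real.one_le_rpow (by norm_num) (by positivity)
            linarith
        _ = 2 ^ (1 + δ * L) := by
            rw [← rp_mul, Real.rpow_one]
            ring
        _ ≤ 2 ^ (k : ℝ) := by
            refine rp_le ?_
            have h3 : δ * L ≤ κ * L / 8 := by
              rw [hδ]
              have h4 : 0 ≤ κ * L := by linarith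
              nlinarith
            linarith
        _ = 2 ^ k := Real.rpow_natCast _ _
    exact_mod_cast h1
  have ht1 : t ≤ 2 ^ (e * k + 1 + d) := by
    have h1 : (t : ℝ) ≤ 2 ^ (e * k + 1 + d) := by
      refine ht.trans ?_
      rw [← Real.rpow_natCast 2 (e * k + 1 + d)]
      refine rp_le ?_
      push_cast
      rw [hdR]
      have h2 : (1 - η) * L ≤ (1 - θ) * L := mul_le_mul_of_nonneg_right (by linarith) (by linarith)
      have h3 : (52 : ℝ) * k ≤ (52 + e) * k := mul_le_mul_of_nonneg_right (by linarith) hk0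
      nlinarith
    exact_mod_cast h1
  have he1 : e ≤ 2 ^ k := hek.trans Nat.lt_two_pow_self.le
  obtain ⟨m', hm'm, hm'N, hbr⟩ := bridge' hR
  obtain ⟨Z, hZ⟩ : ∃ Z : ℝ, Z = 2 ^ ((1 - η) * L) + L ^ 2 := ⟨_, rfl⟩
  have hL20 : 0 ≤ L ^ 2 := by positivity
  have hY0 : (0 : ℝ) ≤ 2 ^ ((1 - η) * L) := by positivity
  -- the main estimate
  have key : m' ≤ 2 ^ (k ^ 2) → (2 : ℝ) ^ Z ≤ N := by
    intro hm'
    have h1 := core2' hk3 he1 hd hm' hf1 ht1 (fun c => hbr (24 * k) c)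
    have h2 : Z + (k : ℝ) ^ 2 + k + 6 ≤ 2 ^ d := by
      have h3 : (k : ℝ) ^ 2 ≤ L ^ 2 := pow_le_pow_left₀ hk0 hkL 2
      have h4 := poly_le hL100
      have h5 : (2 : ℝ) ^ ((1 - η) * L) ≤ 2 ^ (L - θ * L / 2 - 7) := by
        refine rp_le ?_
        have h6 : (1 - η) * L ≤ (1 - θ) * L := mul_le_mul_of_nonneg_right (by linarith) (by linarith)
        nlinarith
      have h6 : (2 : ℝ) ^ (3 * L / 4 - 7) ≤ 2 ^ (L - θ * L / 2 - 7) := by
        refine rp_le ?_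
        nlinarith
      have h7 : (2 : ℝ) ^ (L - θ * L / 2 - 7) + 2 ^ (L - θ * L / 2 - 7) = 2 ^ (L - θ * L / 2 - 6) := by
        have h8 : L - θ * L / 2 - 6 = 1 + (L - θ * L / 2 - 7) := by ring
        rw [h8, ← rp_mul, Real.rpow_one]
        ring
      have h8 : (2 : ℝ) ^ (L - θ * L / 2 - 6) ≤ 2 ^ d := by
        rw [← Real.rpow_natCast 2 d]
        refine rp_le ?_
        rw [hdR]
        nlinarith
      rw [hZ]
      linarith
    have h3 : (2 : ℝ) * ((m' * (24 * k) : ℕ) + 1) ≤ 2 ^ ((k : ℝ) ^ 2 + k + 6) := by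
      have h4 : 2 * (m' * (24 * k) + 1) ≤ 2 ^ (k ^ 2 + k + 6) := by
        calc 2 * (m' * (24 * k) + 1) ≤ 2 * (2 ^ (k ^ 2) * (24 * k) + 2 ^ (k ^ 2)) := by
              gcongr
              exact Nat.one_le_two_pow
          _ = 2 ^ (k ^ 2) * (48 * k + 2) := by ring
          _ ≤ 2 ^ (k ^ 2) * (2 ^ k * 64) := by
              gcongr
              have h5 : k + 1 ≤ 2 ^ k := Nat.lt_two_pow_self
              omega
          _ = 2 ^ (k ^ 2 + k + 6) := by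
              rw [pow_add, pow_add]
              ring
      have h5 : ((2 * (m' * (24 * k) + 1) : ℕ) : ℝ) ≤ ((2 ^ (k ^ 2 + k + 6) : ℕ) : ℝ) := by exact_mod_cast h4
      have h6 : (2 : ℝ) ^ ((k : ℝ) ^ 2 + k + 6) = ((2 ^ (k ^ 2 + k + 6) : ℕ) : ℝ) := by
        push_cast
        rw [← Real.rpow_natCast 2 (k ^ 2 + k + 6)]
        congr 1
        push_cast
        ring
      rw [h6]
      refine le_trans (le_of_eq ?_) h5
      push_cast
      ring
    have h4 : (2 : ℝ) ^ ((2 : ℝ) ^ d) ≤ Real.exp ((2 : ℝ) ^ d) := by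
      rw [Real.rpow_def_of_pos (by norm_num), Real.exp_le_exp]
      have h5 := Real.log_two_lt_d9
      have h6 : (0 : ℝ) < 2 ^ d := by positivity
      nlinarith
    have hN0 : (0 : ℝ) ≤ N := Nat.cast_nonneg N
    have h5 : (2 : ℝ) ^ ((k : ℝ) ^ 2 + k + 6) * 2 ^ Z ≤ (2 : ℝ) ^ ((k : ℝ) ^ 2 + k + 6) * N := by
      calc (2 : ℝ) ^ ((k : ℝ) ^ 2 + k + 6) * 2 ^ Z = 2 ^ (((k : ℝ) ^ 2 + k + 6) + Z) := rp_mul _ _
        _ ≤ 2 ^ ((2 : ℝ) ^ d) := rp_le (by linarith)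
        _ ≤ Real.exp ((2 : ℝ) ^ d) := h4
        _ ≤ 2 * ((m' * (24 * k) : ℕ) + 1) * N := h1
        _ ≤ 2 ^ ((k : ℝ) ^ 2 + k + 6) * N := mul_le_mul_of_nonneg_right h3 hN0
    exact le_of_mul_le_mul_left h5 (by positivity)
  -- the size of `m'`
  have hk2 : δ * L ^ 2 + 1 ≤ (k : ℝ) ^ 2 := by
    have h1 : κ * L / 2 ≤ k := by linarith
    have h2 : (κ * L / 2) ^ 2 ≤ (k : ℝ) ^ 2 := pow_le_pow_left₀ (by linarith) h1 2
    have h3 : (5 : ℝ) ^ 2 ≤ (κ * L) ^ 2 := pow_le_pow_left₀ (by norm_num) (by linarith) 2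
    rw [hδ]
    nlinarith
  have hm'' : ∀ x : ℝ, x ≤ 2 ^ (δ * L ^ 2 + 1) → x ≤ 2 ^ (k ^ 2) := by
    intro x hx
    refine hx.trans ?_
    rw [← Real.rpow_natCast 2 (k ^ 2)]
    refine rp_le ?_
    push_cast
    exact hk2
  constructor
  · intro hm
    have h1 : m' ≤ 2 ^ (k ^ 2) := by
      have h2 : (m' : ℝ) ≤ 2 ^ (k ^ 2) := by
        refine hm'' _ ?_
        have h3 : (m' : ℝ) ≤ m := by exact_mod_cast hm'm
        exact (h3.trans hm).trans (rp_le (by linarith))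
      exact_mod_cast h2
    refine le_trans (rp_le ?_) (key h1)
    rw [hZ]
    linarith
  · by_contra hcon
    rw [not_le] at hcon
    have h1 : m' ≤ 2 ^ (k ^ 2) := by
      have h2 : (m' : ℝ) ≤ 2 ^ (k ^ 2) := by
        refine hm'' _ ?_
        have h3 : (m' : ℝ) ≤ 2 * N := by exact_mod_cast hm'N
        rw [add_comm, ← rp_mul, Real.rpow_one]
        linarith
      exact_mod_cast h2
    have h2 := key h1
    have h3 : (2 : ℝ) ^ (δ * L ^ 2) ≤ 2 ^ Z := by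
      refine rp_le ?_
      rw [hZ]
      nlinarith
    linarith

end H84BA
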