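import Pool.Agent.H84.BA.Pv
import Pool.Agent.H81.BX.Sb
import Pool.Agent.H98.DH.AR

/-!
The Alekhnovich-Razborov operator with heavy blocks for the bit pigeonhole principle (helper84; after H98/DH/AR and H81/BX/Id).
-/

set_option autoImplicit false
open scoped Classical

namespace H84BA

open H96RE H91RE H81BX H98DH

variable {m s l : ℕ}

/-- the block of a variable -/
def bk (m s : ℕ) (i : Fin (m * s)) : Fin m := (finProdFinEquiv.symm i).1

/-- light sets -/
def Lt (m s α : ℕ) (R : Finset (Fin (m * s))) : Prop := R.card ≤ α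

theorem lt_down {m s α : ℕ} : ∀ R R' : Finset (Fin (m * s)), R ⊆ R' → Lt m s α R' → Lt m s α R :=
  fun _ _ h h' => (Finset.card_le_card h).trans h'

/-- One step of the peeling. -/
theorem red_erase' (c : Fin m → Fin s → Fin l → ZMod 2) {α : ℕ} {o : Finset (Fin (m * s)) → ℕ}
    (ho : HOrd (bk m s) (Lt m s α) o) (J : Finset (Fin m)) (a : Fin m) (ha : a ∈ (phq c α).bd J)
    (T : Finset (Fin (m * s))) (hT : a ∉ heavy (bk m s) (Lt m s α) T)
    (h : Red o (H96RX.van ((phq c α).Sat J)) T) : Red o (H96RX.van ((phq c α).Sat (J.erase a))) T := by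
  have hL : Lt m s α (prt (bk m s) T a) := by
    by_contra hcon
    exact hT (Finset.mem_filter.2 ⟨Finset.mem_univ _, hcon⟩)
  obtain ⟨P, hP1, hP2⟩ := priv c (Finset.mem_filter.1 ha).2 (prt (bk m s) T a)
    (fun i hi => (Finset.mem_filter.1 hi).2)
  refine one_block ho a _ _ T hL P (fun R hR hRα => hP2 R hR hRα) ?_ h
  intro x hx z hz
  exact sat_merge c z x (hP1 z hz) hx

theorem red_spt' (c : Fin m → Fin s → Fin l → ZMod 2) {α B C : ℕ} {o : Finset (Fin (m * s)) → ℕ}
    (ho : HOrd (bk m s) (Lt m s α) o) (hF : (phq c α).Exp C B) (T : Finset (Fin (m * s)))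
    (hT : 2 * (C * (heavy (bk m s) (Lt m s α) T).card) ≤ B) (J : Finset (Fin m)) (hJ : J.card ≤ B)
    (h1 : (phq c α).Spt B (heavy (bk m s) (Lt m s α) T) ⊆ J)
    (h : Red o (H96RX.van ((phq c α).Sat J)) T) :
    Red o (H96RX.van ((phq c α).Sat ((phq c α).Spt B (heavy (bk m s) (Lt m s α) T)))) T := by
  induction J using Finset.strongInduction with
  | H J ih =>
    by_cases h2 : J = (phq c α).Spt B (heavy (bk m s) (Lt m s α) T)
    · rwa [← h2]
    · obtain ⟨a, ha, haT, haS⟩ := spt_private (phq c α) hF _ hT J hJ h1 h2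
      have haJ := (phq c α).bd_sub J ha
      refine ih (J.erase a) (Finset.erase_ssubset haJ) ((Finset.card_erase_le).trans hJ) ?_
        (red_erase' c ho J a ha T haT h)
      intro b hb
      exact Finset.mem_erase.2 ⟨fun hba => haS (hba ▸ hb), h1 hb⟩

private theorem Op_mulX {n : ℕ} (i : Fin n) (g : H91RE.Fn n) :
    mulX i g = LinearMap.mulLeft (ZMod 2) (H96RE.mono {i}) g := by
  funext x
  show x i * g x = (H96RE.mono {i} * g) x
  rw [Pi.mul_apply]
  unfold H96RE.mono
  rw [Finset.prod_singleton]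

private theorem Op_mulL {n : ℕ} (i : Fin n) (T : Finset (Fin n)) :
    LinearMap.mulLeft (ZMod 2) (H96RE.mono {i}) (H96RE.mono T) = H96RE.mono (insert i T) := by
  rw [LinearMap.mulLeft_apply, H96RE.mono_mul, Finset.insert_eq]

private theorem Op_mulmem {n : ℕ} (Z : Set (Fin n → ZMod 2)) (i : Fin n) (g : H91RE.Fn n)
    (hg : g ∈ H96RX.van Z) : LinearMap.mulLeft (ZMod 2) (H96RE.mono {i}) g ∈ H96RX.van Z := by
  intro x hx
  rw [LinearMap.mulLeft_apply, Pi.mul_apply, hg x hx, mul_zero]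

private theorem Op_anti (c : Fin m → Fin s → Fin l → ZMod 2) (α : ℕ) {J J' : Finset (Fin m)} (h : J ⊆ J') :
    H96RX.van ((phq c α).Sat J) ≤ H96RX.van ((phq c α).Sat J') :=
  fun _ hg x hx => hg x ((phq c α).sat_mono J J' h hx)

private theorem Op_vars (c : Fin m → Fin s → Fin l → ZMod 2) (α : ℕ)
    (o : Finset (Fin (m * s)) → ℕ) (ho : Function.Injective o) (J : Finset (Fin m)) (T : Finset (Fin (m * s)))
    (r : H91RE.Fn (m * s))
    (hr : r ∈ Submodule.span (ZMod 2)
      (H96RE.mono '' {T' | ¬ H91RE.Red o (H96RX.van ((phq c α).Sat J)) T' ∧ o T' ≤ o T}))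
    (hV : H96RE.mono T - r ∈ H96RX.van ((phq c α).Sat J)) :
    r ∈ Submodule.span (ZMod 2) (H96RE.mono '' {T' | ¬ H91RE.Red o (H96RX.van ((phq c α).Sat J)) T' ∧ o T' ≤ o T ∧
      ∀ i ∈ T', i ∈ T ∨ bk m s i ∈ J}) := by
  set A : Finset (Fin (m * s)) := T ∪ Finset.univ.filter (fun i => bk m s i ∈ J) with hA
  have hAmem : ∀ i ∈ A, i ∈ T ∨ bk m s i ∈ J := by
    intro i hi
    rcases Finset.mem_union.mp hi with h | h
    · exact Or.inl h
    · exact Or.inr (Finset.mem_filter.mp h).2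
  have hA2 : ∀ i, bk m s i ∈ J → i ∈ A := fun i hi =>
    Finset.mem_union_right _ (Finset.mem_filter.mpr ⟨Finset.mem_univ i, hi⟩)
  have h1 : H91RE.setz A r ∈ Submodule.span (ZMod 2) (H96RE.mono '' {T' | ¬ H91RE.Red o (H96RX.van ((phq c α).Sat J)) T' ∧
      o T' ≤ o T ∧ ∀ i ∈ T', i ∈ T ∨ bk m s i ∈ J}) := by
    have hle : Submodule.span (ZMod 2) (H96RE.mono '' {T' | ¬ H91RE.Red o (H96RX.van ((phq c α).Sat J)) T' ∧ o T' ≤ o T}) ≤
        Submodule.comap (H91RE.setz A)
          (Submodule.span (ZMod 2) (H96RE.mono '' {T' | ¬ H91RE.Red o (H96RX.van ((phq c α).Sat J)) T' ∧ o T' ≤ o T ∧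
            ∀ i ∈ T', i ∈ T ∨ bk m s i ∈ J})) := by
      rw [Submodule.span_le]
      rintro _ ⟨T', hT', rfl⟩
      show H91RE.setz A (H96RE.mono T') ∈
        Submodule.span (ZMod 2) (H96RE.mono '' {T' | ¬ H91RE.Red o (H96RX.van ((phq c α).Sat J)) T' ∧ o T' ≤ o T ∧
            ∀ i ∈ T', i ∈ T ∨ bk m s i ∈ J})
      by_cases hs : T' ⊆ A
      · rw [H91RE.setz_mono_of_subset A T' hs]
        exact Submodule.subset_span ⟨T', ⟨hT'.1, hT'.2, fun i hi => hAmem i (hs hi)⟩, rfl⟩
      · rw [H91RE.setz_mono_of_not_subset A T' hs]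
        exact Submodule.zero_mem _
    exact hle hr
  have h2 : H96RE.mono T - H91RE.setz A r ∈ H96RX.van ((phq c α).Sat J) := by
    have h3 : H91RE.setz A (H96RE.mono T - r) ∈ H96RX.van ((phq c α).Sat J) := by
      intro x hx
      rw [H91RE.setz_apply]
      refine hV _ ((phq c α).sat_loc J x _ (fun i hi => ?_) hx)
      show x i = if i ∈ A then x i else 0
      rw [if_pos (hA2 i hi)]
    rwa [map_sub, H91RE.setz_mono_of_subset A T Finset.subset_union_left] at h3
  have h3 : r - H91RE.setz A r ∈ H96RX.van ((phq c α).Sat J) := by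
    have := Submodule.sub_mem _ h2 hV
    rwa [sub_sub_sub_cancel_left] at this
  have h4 : r - H91RE.setz A r ∈ Submodule.span (ZMod 2)
      (H96RE.mono '' {T' | ¬ H91RE.Red o (H96RX.van ((phq c α).Sat J)) T'}) := by
    refine Submodule.sub_mem _ (Submodule.span_mono ?_ hr) (Submodule.span_mono ?_ h1)
    · rintro _ ⟨T', hT', rfl⟩
      exact ⟨T', hT'.1, rfl⟩
    · rintro _ ⟨T', hT', rfl⟩
      exact ⟨T', hT'.1, rfl⟩
  have h5 := H91RE.irr_unique o ho _ _ h3 h4
  rw [sub_eq_zero] at h5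
  rw [h5]
  exact h1

theorem op (c : Fin m → Fin s → Fin l → ZMod 2) {α B E : ℕ} (hF : (phq c α).Exp 4 B) (hE : 2 * (4 * E) ≤ B) :
    ∃ K : Submodule (ZMod 2) (H91RE.Fn (m * s)),
      (∀ A : Finset (Fin m), A.card ≤ E → ∀ g ∈ Submodule.span (ZMod 2)
        (H96RE.mono '' {T' : Finset (Fin (m * s)) | ∀ i ∈ T', bk m s i ∈ A}),
        g ∈ H96RX.van ((phq c α).Sat A) → g ∈ K) ∧
      (∀ g ∈ K, ∀ h, h + 1 ≤ E → g ∈ Mh (bk m s) (Lt m s α) h → ∀ i, mulX i g ∈ K) ∧
      Disjoint (Submodule.span (ZMod 2)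
        (H96RE.mono '' {T : Finset (Fin (m * s)) | heavy (bk m s) (Lt m s α) T = ∅})) K := by
  obtain ⟨o, ho⟩ := hord_exists (bk m s) (Lt m s α)
  obtain ⟨hv, hhv⟩ : ∃ hv : Finset (Fin (m * s)) → Finset (Fin m), hv = heavy (bk m s) (Lt m s α) := ⟨_, rfl⟩
  obtain ⟨F, hFd⟩ : ∃ F : Frame (m * s) m, F = phq c α := ⟨_, rfl⟩
  have hbd : ∀ a : ℕ, a ≤ E → 2 * (4 * a) ≤ B := fun a ha => by omega
  have hEB : E ≤ B := by omega
  have hanti : ∀ J J' : Finset (Fin m), J ⊆ J' → H96RX.van (F.Sat J) ≤ H96RX.van (F.Sat J') := by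
    intro J J' h
    rw [hFd]
    exact Op_anti c α h
  have hheavy_insert : ∀ (i : Fin (m * s)) (T : Finset (Fin (m * s))), hv (insert i T) ⊆ insert (bk m s i) (hv T) := by
    intro i T
    rw [hhv]
    exact heavy_insert lt_down i T
  have hheavy_sub : ∀ (T T' : Finset (Fin (m * s))) (W : Finset (Fin m)), (∀ i ∈ T', i ∈ T ∨ bk m s i ∈ W) →
      hv T' ⊆ hv T ∪ W := by
    intro T T' W h
    rw [hhv]
    exact heavy_sub lt_down h
  choose P hP0 hPirr hPsub hPmono using fun J : Finset (Fin m) => proj o ho.1 (H96RX.van (F.Sat J))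
  have hPv : ∀ (J : Finset (Fin m)) (T : Finset (Fin (m * s))), P J (H96RE.mono T) ∈
      Submodule.span (ZMod 2) (H96RE.mono '' {T' | ¬ H91RE.Red o (H96RX.van (F.Sat J)) T' ∧ o T' ≤ o T ∧
        ∀ i ∈ T', i ∈ T ∨ bk m s i ∈ J}) := by
    intro J T
    rw [hFd] at hPmono hPsub ⊢
    exact Op_vars c α o ho.1 J T _ (hPmono J T) (hPsub J (H96RE.mono T))
  have hcard : ∀ T T' : Finset (Fin (m * s)), o T' ≤ o T → (hv T').card ≤ (hv T).card := by
    intro T T' h
    rw [hhv]
    by_contra hc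
    have := ho.2 T' T (by omega)
    omega
  obtain ⟨cl, hcl⟩ : ∃ cl : Finset (Fin (m * s)) → Finset (Fin m), cl = fun T => F.Spt B (hv T) := ⟨_, rfl⟩
  have hclT : ∀ T, cl T = F.Spt B (hv T) := fun T => by rw [hcl]
  have hFE : F.Exp 4 B := by rw [hFd]; exact hF
  have hclcard : ∀ A : Finset (Fin m), A.card ≤ E → (F.Spt B A).card ≤ B := by
    intro A hA
    have h1 := spt_card F hFE A (hbd _ hA)
    omega
  have hself : ∀ T : Finset (Fin (m * s)), (hv T).card ≤ E → hv T ⊆ cl T := by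
    intro T hT
    rw [hclT]
    exact spt_self F _ (hT.trans hEB)
  have hsub : ∀ (A : Finset (Fin m)) (T : Finset (Fin (m * s))), A.card ≤ E → (hv T).card ≤ E → hv T ⊆ F.Spt B A →
      cl T ⊆ F.Spt B A := by
    intro A T hA hT h
    rw [hclT]
    exact spt_sub F hFE A (hv T) (hbd _ hA) (hbd _ hT) h
  have hred : ∀ T : Finset (Fin (m * s)), (hv T).card ≤ E → ∀ J : Finset (Fin m), cl T ⊆ J → J.card ≤ B →
      H91RE.Red o (H96RX.van (F.Sat J)) T → H91RE.Red o (H96RX.van (F.Sat (cl T))) T := by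
    intro T hT J hTJ hJ h
    rw [hclT] at hTJ ⊢
    rw [hhv] at hT hTJ ⊢
    rw [hFd] at hTJ h ⊢
    exact red_spt' c ho hF T (hbd _ hT) J hJ hTJ h
  -- independence of the set of constraints
  have h1 : ∀ (T : Finset (Fin (m * s))) (J : Finset (Fin m)), (hv T).card ≤ E →
      cl T ⊆ J → J.card ≤ B → P J (H96RE.mono T) = P (cl T) (H96RE.mono T) := by
    intro T J hT hTJ hJ
    have h2 : P J (H96RE.mono T - P (cl T) (H96RE.mono T)) = 0 :=
      hP0 J _ (hanti _ _ hTJ (hPsub (cl T) (H96RE.mono T)))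
    rw [map_sub, sub_eq_zero] at h2
    rw [h2]
    have h3 : Set.EqOn (P J) (LinearMap.id (R := ZMod 2) (M := H91RE.Fn (m * s)))
        (H96RE.mono '' {T' | ¬ H91RE.Red o (H96RX.van (F.Sat (cl T))) T' ∧ o T' ≤ o T ∧
          ∀ i ∈ T', i ∈ T ∨ bk m s i ∈ cl T}) := by
      rintro _ ⟨T', ⟨hirr, hoT, hsb⟩, rfl⟩
      have hT' : (hv T').card ≤ E := (hcard T T' hoT).trans hT
      have h5 : hv T' ⊆ cl T :=
        (hheavy_sub T T' (cl T) hsb).trans (Finset.union_subset (hself T hT) (Finset.Subset.refl _))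
      have hs' : cl T' ⊆ cl T := by
        have h6 : cl T' ⊆ F.Spt B (hv T) := hsub (hv T) T' hT hT' (by rw [← hclT]; exact h5)
        rwa [← hclT] at h6
      show P J (H96RE.mono T') = H96RE.mono T'
      refine hPirr J T' fun hredJ => hirr ?_
      have h4 := hred T' hT' J (hs'.trans hTJ) hJ hredJ
      exact (sup_le_sup_right (hanti _ _ hs') _) h4
    exact LinearMap.eqOn_span h3 (hPv (cl T) T)
  -- the operator
  let b := Module.Basis.mk (H96RE.mono_indep (m * s)) (H91RE.mono_top (m * s)).ge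
  let R : H91RE.Fn (m * s) →ₗ[ZMod 2] H91RE.Fn (m * s) :=
    b.constr (ZMod 2) (fun T => if (hv T).card ≤ E then P (cl T) (H96RE.mono T) else 0)
  have hR : ∀ T : Finset (Fin (m * s)), (hv T).card ≤ E → R (H96RE.mono T) = P (cl T) (H96RE.mono T) := by
    intro T hT
    have hb : b T = H96RE.mono T := Module.Basis.mk_apply (H96RE.mono_indep (m * s)) (H91RE.mono_top (m * s)).ge T
    have h2 : R (b T) = if (hv T).card ≤ E then P (cl T) (H96RE.mono T) else 0 := b.constr_basis (ZMod 2) _ T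
    rw [← hb, h2, if_pos hT, hb]
  have hins : ∀ (i : Fin (m * s)) (a : ℕ), a + 1 ≤ E → ∀ T' : Finset (Fin (m * s)), (hv T').card ≤ a →
      (hv (insert i T')).card ≤ E := by
    intro i a ha T' hT'
    refine (Finset.card_le_card (hheavy_insert i T')).trans ?_
    exact (Finset.card_insert_le _ _).trans (by omega)
  -- multiplication
  have hmul : ∀ (i : Fin (m * s)) (a : ℕ), a + 1 ≤ E → ∀ g ∈ Mh (bk m s) (Lt m s α) a,
      R (LinearMap.mulLeft (ZMod 2) (H96RE.mono {i}) g) =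
        R (LinearMap.mulLeft (ZMod 2) (H96RE.mono {i}) (R g)) := by
    intro i a ha g hg
    have h2 : Set.EqOn (R ∘ₗ LinearMap.mulLeft (ZMod 2) (H96RE.mono {i}))
        (R ∘ₗ LinearMap.mulLeft (ZMod 2) (H96RE.mono {i}) ∘ₗ R)
        (H96RE.mono '' {T : Finset (Fin (m * s)) | (heavy (bk m s) (Lt m s α) T).card ≤ a}) := by
      rintro _ ⟨T, hT, rfl⟩
      have hT1 : (hv T).card ≤ a := by rw [hhv]; exact hT
      have hTE' : (hv T).card ≤ E := by omega
      set U : Finset (Fin m) := insert (bk m s i) (hv T) with hU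
      have hUc : U.card ≤ E := (Finset.card_insert_le _ _).trans (by omega)
      set J := F.Spt B U with hJ
      have hJB : J.card ≤ B := hclcard U hUc
      have hUJ : U ⊆ J := spt_self F U (hUc.trans hEB)
      have hcT : cl T ⊆ J := hsub U T hUc hTE' ((Finset.subset_insert _ _).trans hUJ)
      have hcTi : cl (insert i T) ⊆ J := hsub U _ hUc (hins i a ha T hT1) ((hheavy_insert i T).trans hUJ)
      show R (LinearMap.mulLeft (ZMod 2) (H96RE.mono {i}) (H96RE.mono T)) =
        R (LinearMap.mulLeft (ZMod 2) (H96RE.mono {i}) (R (H96RE.mono T)))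
      have h3 : R (LinearMap.mulLeft (ZMod 2) (H96RE.mono {i}) (H96RE.mono T)) =
          P J (LinearMap.mulLeft (ZMod 2) (H96RE.mono {i}) (H96RE.mono T)) := by
        rw [Op_mulL, hR _ (hins i a ha T hT1), h1 _ J (hins i a ha T hT1) hcTi hJB]
      have h4 : P J (LinearMap.mulLeft (ZMod 2) (H96RE.mono {i}) (H96RE.mono T)) =
          P J (LinearMap.mulLeft (ZMod 2) (H96RE.mono {i}) (R (H96RE.mono T))) := by
        rw [← sub_eq_zero, ← map_sub, ← map_sub, hR T hTE']
        exact hP0 J _ (Op_mulmem _ i _ (hanti _ _ hcT (hPsub _ (H96RE.mono T))))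
      have h5 : Set.EqOn (P J ∘ₗ LinearMap.mulLeft (ZMod 2) (H96RE.mono {i}))
          (R ∘ₗ LinearMap.mulLeft (ZMod 2) (H96RE.mono {i}))
          (H96RE.mono '' {T' | ¬ H91RE.Red o (H96RX.van (F.Sat (cl T))) T' ∧ o T' ≤ o T ∧
            ∀ i ∈ T', i ∈ T ∨ bk m s i ∈ cl T}) := by
        rintro _ ⟨T', ⟨hirr, hoT, hsb⟩, rfl⟩
        have hT' : (hv T').card ≤ a := (hcard T T' hoT).trans hT1
        have hs' : cl (insert i T') ⊆ J := by
          refine hsub U _ hUc (hins i a ha T' hT') ?_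
          intro v hv'
          rcases Finset.mem_insert.mp (hheavy_insert i T' hv') with rfl | hv''
          · exact hUJ (Finset.mem_insert_self _ _)
          · rcases Finset.mem_union.mp (hheavy_sub T T' (cl T) hsb hv'') with h6 | h6
            · exact hUJ (Finset.mem_insert_of_mem h6)
            · exact hcT h6
        show P J (LinearMap.mulLeft (ZMod 2) (H96RE.mono {i}) (H96RE.mono T')) =
          R (LinearMap.mulLeft (ZMod 2) (H96RE.mono {i}) (H96RE.mono T'))
        rw [Op_mulL, hR _ (hins i a ha T' hT'), h1 _ J (hins i a ha T' hT') hs' hJB]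
      have h6 := LinearMap.eqOn_span h5 (hPv (cl T) T)
      rw [← hR T hTE'] at h6
      rw [h3, h4]
      exact h6
    exact LinearMap.eqOn_span h2 hg
  have hheavy0 : hv ∅ = ∅ := by
    rw [hhv]
    unfold heavy
    refine Finset.filter_false_of_mem fun v _ => ?_
    intro h
    apply h
    unfold prt Lt
    rw [Finset.filter_empty, Finset.card_empty]
    exact Nat.zero_le _
  have hSj : ∀ (A : Finset (Fin m)) (T' : Finset (Fin (m * s))), (∀ i ∈ T', bk m s i ∈ A) → hv T' ⊆ A := by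
    intro A T' h
    have h2 := hheavy_sub ∅ T' A fun i hi => Or.inr (h i hi)
    rwa [hheavy0, Finset.empty_union] at h2
  have hMmul : ∀ (i : Fin (m * s)) (a : ℕ), a + 1 ≤ E → ∀ g ∈ Mh (bk m s) (Lt m s α) a,
      LinearMap.mulLeft (ZMod 2) (H96RE.mono {i}) g ∈ Mh (bk m s) (Lt m s α) E := by
    intro i a ha g hg
    have hle : Mh (bk m s) (Lt m s α) a ≤
        Submodule.comap (LinearMap.mulLeft (ZMod 2) (H96RE.mono {i})) (Mh (bk m s) (Lt m s α) E) := by
      unfold Mh
      rw [Submodule.span_le]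
      rintro _ ⟨T', hT', rfl⟩
      have hT'' : (hv T').card ≤ a := by rw [hhv]; exact hT'
      show LinearMap.mulLeft (ZMod 2) (H96RE.mono {i}) (H96RE.mono T') ∈
        Submodule.span (ZMod 2) (H96RE.mono '' {T | (heavy (bk m s) (Lt m s α) T).card ≤ E})
      rw [Op_mulL]
      refine Submodule.subset_span ⟨_, ?_, rfl⟩
      have h2 := hins i a ha T' hT''
      rw [hhv] at h2
      exact h2
    exact hle hg
  refine ⟨Mh (bk m s) (Lt m s α) E ⊓ LinearMap.ker R, ?_, ?_, ?_⟩
  · intro A hA g hg hgV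
    refine Submodule.mem_inf.mpr ⟨?_, LinearMap.mem_ker.mpr ?_⟩
    · refine Submodule.span_mono ?_ hg
      rintro _ ⟨T', hT', rfl⟩
      refine ⟨T', ?_, rfl⟩
      have h2 := (Finset.card_le_card (hSj A T' hT')).trans hA
      rw [hhv] at h2
      exact h2
    · have hAJ : A ⊆ F.Spt B A := spt_self F A (hA.trans hEB)
      have h5 : Set.EqOn R (P (F.Spt B A)) (H96RE.mono '' {T' : Finset (Fin (m * s)) | ∀ i ∈ T', bk m s i ∈ A}) := by
        rintro _ ⟨T', hT', rfl⟩
        have hsb : hv T' ⊆ A := hSj A T' hT'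
        have hT'E : (hv T').card ≤ E := (Finset.card_le_card hsb).trans hA
        rw [hR _ hT'E, h1 _ (F.Spt B A) hT'E (hsub A T' hA hT'E (hsb.trans hAJ)) (hclcard A hA)]
      rw [LinearMap.eqOn_span h5 hg]
      refine hP0 (F.Spt B A) _ (hanti _ _ hAJ ?_)
      rw [hFd]
      exact hgV
  · intro g hg a ha hga i
    have hgR : R g = 0 := LinearMap.mem_ker.mp (Submodule.mem_inf.mp hg).2
    rw [Op_mulX]
    refine Submodule.mem_inf.mpr ⟨hMmul i a ha g hga, LinearMap.mem_ker.mpr ?_⟩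
    rw [hmul i a ha g hga, hgR, map_zero, map_zero]
  -- the light monomials are fixed
  · rw [Submodule.disjoint_def]
    intro f hf hfK
    have h6 : Set.EqOn R (LinearMap.id (R := ZMod 2) (M := H91RE.Fn (m * s)))
        (H96RE.mono '' {T : Finset (Fin (m * s)) | heavy (bk m s) (Lt m s α) T = ∅}) := by
      rintro _ ⟨T, hG, rfl⟩
      have hG' : hv T = ∅ := by rw [hhv]; exact hG
      show R (H96RE.mono T) = H96RE.mono T
      have h8 : cl T = ∅ := by
        rw [hclT, hG', ← Finset.card_eq_zero]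
        have h9 := spt_card F hFE ∅ (hbd _ (by simp))
        rw [Finset.card_empty, Nat.mul_zero] at h9
        omega
      rw [hR T (by rw [hG']; simp), h8]
      have h7 : H96RE.mono T - P ∅ (H96RE.mono T) = 0 := by
        funext x
        refine hPsub ∅ (H96RE.mono T) x ?_
        rw [hFd]
        intro a ha
        exact absurd ha (Finset.notMem_empty a)
      rw [sub_eq_zero] at h7
      exact h7.symm
    have h7 := LinearMap.eqOn_span h6 hf
    have h8 : R f = 0 := LinearMap.mem_ker.mp (Submodule.mem_inf.mp hfK).2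
    rw [h8] at h7
    exact h7.symm

end H84BA
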