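import Pool.Agent.H84.BA.Def

/-!
The minimum distance of the Reed-Muller codes and private point sets (helper84).
-/

set_option autoImplicit false
open scoped Classical

namespace H84BA

open H96RE H91RE H81BX H98DH

/-- A nonzero polynomial of degree at most `α` is nonzero at `2 ^ (s - α)` points at least. -/
theorem rm_dist {s α : ℕ} {g : Fn s} (hg : g ∈ Pol s α) (h0 : g ≠ 0) :
    2 ^ (s - α) ≤ (Finset.univ.filter fun u : Fin s → ZMod 2 => g u ≠ 0).card := by
  unfold Pol at hg
  rw [Finsupp.mem_span_image_iff_linearCombination] at hg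
  obtain ⟨lf, hlf, hgl⟩ := hg
  have hl0 : lf ≠ 0 := by
    rintro rfl
    exact h0 (by rw [← hgl]; simp)
  have hsne : lf.support.Nonempty := Finsupp.support_nonempty_iff.mpr hl0
  obtain ⟨T, hT, hmax⟩ := Finset.exists_max_image lf.support (fun T => T.card) hsne
  have hTα : T.card ≤ α := ((Finsupp.mem_supported (ZMod 2) lf).mp hlf) hT
  have hlT : lf T = 1 := by
    have h01 : ∀ t : ZMod 2, t ≠ 0 → t = 1 := by decide
    exact h01 _ (Finsupp.mem_support_iff.mp hT)
  have hgx : ∀ x, g x = ∑ T' ∈ lf.support, lf T' * mono T' x := by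
    intro x
    rw [← hgl, Finsupp.linearCombination_apply, Finsupp.sum, Finset.sum_apply]
    rfl
  -- the sum over every subcube in the directions `T` is 1
  have hsum : ∀ u : Fin s → ZMod 2, ∑ R ∈ T.powerset, g (u + ind R) = 1 := by
    intro u
    have h1 : ∑ R ∈ T.powerset, g (u + ind R) =
        ∑ T' ∈ lf.support, lf T' * ∑ R ∈ T.powerset, mono T' (u + ind R) := by
      simp only [hgx]
      rw [Finset.sum_comm]
      refine Finset.sum_congr rfl fun T' _ => ?_
      rw [Finset.mul_sum]
    rw [h1, Finset.sum_eq_single T]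
    · rw [hlT, one_mul]
      exact cube_sum_one u T
    · intro T' hT' hne
      have h2 : ¬ T ⊆ T' := by
        intro h3
        rcases h3.eq_or_ssubset with h4 | h4
        · exact hne h4.symm
        · exact absurd (Finset.card_lt_card h4) (not_lt.2 (hmax T' hT'))
      obtain ⟨i, hi, hi'⟩ := Finset.not_subset.1 h2
      have h3 : ∑ R ∈ T.powerset, mono T' (u + ind R) = 0 := cube_sum_zero u T T' i hi hi'
      rw [h3, mul_zero]
    · intro h
      exact absurd hT h
  have hex : ∀ u : Fin s → ZMod 2, ∃ R ⊆ T, g (u + ind R) ≠ 0 := by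
    intro u
    by_contra hcon
    push Not at hcon
    have h1 := hsum u
    rw [Finset.sum_eq_zero fun R hR => hcon R (Finset.mem_powerset.1 hR)] at h1
    exact zero_ne_one h1
  choose R hRT hR using hex
  -- the points which are zero on `T`
  have hcard : (Fintype.piFinset fun i : Fin s => if i ∈ T then ({0} : Finset (ZMod 2)) else Finset.univ).card =
      2 ^ (s - T.card) := by
    rw [Fintype.card_piFinset]
    have h1 : ∀ i : Fin s, (if i ∈ T then ({0} : Finset (ZMod 2)) else Finset.univ).card =
        if i ∈ T then 1 else 2 := by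
      intro i
      by_cases hi : i ∈ T
      · rw [if_pos hi, if_pos hi, Finset.card_singleton]
      · rw [if_neg hi, if_neg hi, Finset.card_univ, ZMod.card]
    rw [Finset.prod_congr rfl fun i _ => h1 i, Finset.prod_ite, Finset.prod_const_one, one_mul, Finset.prod_const]
    congr 1
    have h2 := Finset.card_filter_add_card_filter_not (s := (Finset.univ : Finset (Fin s))) (fun i => i ∈ T)
    rw [Finset.filter_mem_eq_inter, Finset.univ_inter, Finset.card_univ, Fintype.card_fin] at h2
    omega
  calc 2 ^ (s - α) ≤ 2 ^ (s - T.card) := Nat.pow_le_pow_right (by norm_num) (by omega)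
    _ = (Fintype.piFinset fun i : Fin s => if i ∈ T then ({0} : Finset (ZMod 2)) else Finset.univ).card :=
        hcard.symm
    _ ≤ _ := by
      refine Finset.card_le_card_of_injOn (fun u => u + ind (R u)) ?_ ?_
      · intro u _
        exact Finset.mem_coe.2 (Finset.mem_filter.2 ⟨Finset.mem_univ _, hR u⟩)
      · intro u hu v hv huv
        have hu' := Fintype.mem_piFinset.1 (Finset.mem_coe.1 hu)
        have hv' := Fintype.mem_piFinset.1 (Finset.mem_coe.1 hv)
        funext i
        by_cases hi : i ∈ T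
        · have h1 := hu' i
          have h2 := hv' i
          rw [if_pos hi, Finset.mem_singleton] at h1 h2
          rw [h1, h2]
        · have h1 : u i + ind (R u) i = v i + ind (R v) i := congrFun huv i
          have h2 : ind (R u) i = (0 : ZMod 2) := if_neg fun h => hi (hRT u h)
          have h3 : ind (R v) i = (0 : ZMod 2) := if_neg fun h => hi (hRT v h)
          rw [h2, h3, add_zero, add_zero] at h1
          exact h1

/-- Dual basis: if no nonzero combination of the monomials of `L` vanishes on `A`, then for `L0 ∈ L` a sum over points of `A` picks `L0`. -/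
theorem dual {s : ℕ} (A : Set (Fin s → ZMod 2)) (L : Set (Finset (Fin s)))
    (h : ∀ g ∈ Submodule.span (ZMod 2) (mono '' L), (∀ x ∈ A, g x = 0) → g = 0) (L0 : Finset (Fin s)) :
    ∃ P : Finset (Fin s → ZMod 2), (∀ z ∈ P, z ∈ A) ∧
      ∀ R ∈ L, ∑ z ∈ P, mono R z = if R = L0 then 1 else 0 := by
  let ρ : Submodule.span (ZMod 2) (mono '' L) →ₗ[ZMod 2] ((Fin s → ZMod 2) → ZMod 2) :=
    { toFun := fun g x => if x ∈ A then (g : Fn s) x else 0
      map_add' := fun g g' => by
        funext x
        show (if x ∈ A then ((g : Fn s) x + (g' : Fn s) x) else 0) =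
          (if x ∈ A then (g : Fn s) x else 0) + (if x ∈ A then (g' : Fn s) x else 0)
        by_cases hx : x ∈ A
        · rw [if_pos hx, if_pos hx, if_pos hx]
        · rw [if_neg hx, if_neg hx, if_neg hx, add_zero]
      map_smul' := fun z g => by
        funext x
        show (if x ∈ A then z * (g : Fn s) x else 0) = z * (if x ∈ A then (g : Fn s) x else 0)
        by_cases hx : x ∈ A
        · rw [if_pos hx, if_pos hx]
        · rw [if_neg hx, if_neg hx, mul_zero] }
  have hinj : LinearMap.ker ρ = ⊥ := by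
    rw [LinearMap.ker_eq_bot']
    intro g hg
    apply Subtype.ext
    refine h g g.2 ?_
    intro x hx
    have h1 : (if x ∈ A then (g : Fn s) x else 0) = 0 := congrFun hg x
    rwa [if_pos hx] at h1
  obtain ⟨π, hπ⟩ := LinearMap.exists_leftInverse_of_injective ρ hinj
  let b := Module.Basis.mk (mono_indep s) (mono_top s).ge
  have hb : ∀ R, b.coord L0 (mono R) = if R = L0 then 1 else 0 := by
    intro R
    have h1 : mono R = b R := (Module.Basis.mk_apply (mono_indep s) (mono_top s).ge R).symm
    rw [h1, Module.Basis.coord_apply, Module.Basis.repr_self, Finsupp.single_apply]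
  let μ : ((Fin s → ZMod 2) → ZMod 2) →ₗ[ZMod 2] ZMod 2 :=
    (b.coord L0) ∘ₗ (Submodule.subtype _) ∘ₗ π
  have hμ : ∀ f : (Fin s → ZMod 2) → ZMod 2, μ f = ∑ z, f z * μ (Pi.single z 1) := by
    intro f
    conv_lhs => rw [← Finset.univ_sum_single f]
    rw [map_sum]
    refine Finset.sum_congr rfl fun z _ => ?_
    have h1 : (Pi.single z (f z) : (Fin s → ZMod 2) → ZMod 2) = f z • Pi.single z 1 := by
      rw [← Pi.single_smul, smul_eq_mul, mul_one]
    rw [h1, map_smul, smul_eq_mul]
  have h01 : ∀ t : ZMod 2, t = 0 ∨ t = 1 := by decide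
  refine ⟨Finset.univ.filter (fun z => z ∈ A ∧ μ (Pi.single z 1) = 1), ?_, ?_⟩
  · intro z hz
    exact (Finset.mem_filter.mp hz).2.1
  · intro R hR
    have h1 : μ (ρ ⟨mono R, Submodule.subset_span ⟨R, hR, rfl⟩⟩) = if R = L0 then 1 else 0 := by
      rw [← hb R]
      show b.coord L0 ((π (ρ ⟨mono R, Submodule.subset_span ⟨R, hR, rfl⟩⟩) :
        Submodule.span (ZMod 2) (mono '' L)) : Fn s) = _
      have h2 : π (ρ ⟨mono R, Submodule.subset_span ⟨R, hR, rfl⟩⟩) =
          ⟨mono R, Submodule.subset_span ⟨R, hR, rfl⟩⟩ := LinearMap.congr_fun hπ _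
      rw [h2]
    rw [← h1, hμ, ← Finset.filter_filter, Finset.sum_filter, Finset.sum_filter]
    refine Finset.sum_congr rfl fun z _ => ?_
    show (if z ∈ A then (if μ (Pi.single z 1) = 1 then mono R z else 0) else 0) =
      (if z ∈ A then mono R z else 0) * μ (Pi.single z 1)
    by_cases hz : z ∈ A
    · rw [if_pos hz, if_pos hz]
      rcases h01 (μ (Pi.single z 1)) with h2 | h2
      · rw [h2, if_neg (by decide), mul_zero]
      · rw [h2, if_pos rfl, mul_one]
    · rw [if_neg hz, if_neg hz, zero_mul]

variable {m s l : ℕ}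

theorem blk_e (a : Fin m) (t : Fin s) : (finProdFinEquiv.symm (finProdFinEquiv (a, t) : Fin (m * s))).1 = a := by
  rw [Equiv.symm_apply_apply]

/-- the part of `T` in the block `a` as a set of local variables -/
noncomputable def loc (T : Finset (Fin (m * s))) (a : Fin m) : Finset (Fin s) :=
  Finset.univ.filter fun t => finProdFinEquiv (a, t) ∈ T

theorem eq_image_loc {a : Fin m} {R : Finset (Fin (m * s))} (hR : ∀ i ∈ R, (finProdFinEquiv.symm i).1 = a) :
    R = (loc R a).image fun t => finProdFinEquiv (a, t) := by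
  ext i
  rw [Finset.mem_image]
  constructor
  · intro hi
    have h1 : finProdFinEquiv (a, (finProdFinEquiv.symm i).2) = i := by
      have h2 : (finProdFinEquiv.symm i).1 = a := hR i hi
      rw [← h2, Prod.mk.eta, Equiv.apply_symm_apply]
    refine ⟨(finProdFinEquiv.symm i).2, ?_, h1⟩
    unfold loc
    refine Finset.mem_filter.2 ⟨Finset.mem_univ _, ?_⟩
    rw [h1]
    exact hi
  · rintro ⟨t, ht, rfl⟩
    exact (Finset.mem_filter.1 ht).2

theorem loc_inj (a : Fin m) : Function.Injective fun t : Fin s => (finProdFinEquiv (a, t) : Fin (m * s)) := by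
  intro t t' h
  exact (Prod.mk.inj (finProdFinEquiv.injective h)).2

theorem loc_card {a : Fin m} {R : Finset (Fin (m * s))} (hR : ∀ i ∈ R, (finProdFinEquiv.symm i).1 = a) :
    (loc R a).card = R.card := by
  conv_rhs => rw [eq_image_loc hR]
  rw [Finset.card_image_of_injective _ (loc_inj a)]

theorem mono_loc {a : Fin m} {R : Finset (Fin (m * s))} (hR : ∀ i ∈ R, (finProdFinEquiv.symm i).1 = a)
    (z : Fin (m * s) → ZMod 2) : mono R z = mono (loc R a) (zz z a) := by
  conv_lhs => rw [eq_image_loc hR]
  unfold mono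
  rw [Finset.prod_image fun t _ t' _ h => loc_inj a h]
  rfl

/-- Private point sets of a free pigeon. -/
theorem priv (c : Fin m → Fin s → Fin l → ZMod 2) {α : ℕ} {J : Finset (Fin m)} {a : Fin m} (ha : FreeA c α J a)
    (L0 : Finset (Fin (m * s))) (hL : ∀ i ∈ L0, (finProdFinEquiv.symm i).1 = a) :
    ∃ P : Finset (Fin (m * s) → ZMod 2), (∀ z ∈ P, zz z a ∉ Cov c J a) ∧
      ∀ R : Finset (Fin (m * s)), (∀ i ∈ R, (finProdFinEquiv.symm i).1 = a) → R.card ≤ α →
        ∑ z ∈ P, mono R z = if R = L0 then 1 else 0 := by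
  obtain ⟨P0, hP0, hsum⟩ := dual {u | u ∉ Cov c J a} {R : Finset (Fin s) | R.card ≤ α} (by
    intro g hg hgA
    by_contra hne
    have h1 := rm_dist (α := α) hg hne
    unfold FreeA at ha
    refine absurd (h1.trans (Finset.card_le_card ?_)) (not_le.2 ha)
    intro u hu
    by_contra hu'
    exact (Finset.mem_filter.1 hu).2 (hgA u hu')) (loc L0 a)
  obtain ⟨lift, hlift⟩ : ∃ lift : (Fin s → ZMod 2) → (Fin (m * s) → ZMod 2),
      lift = fun z0 i => if (finProdFinEquiv.symm i).1 = a then z0 (finProdFinEquiv.symm i).2 else 0 := ⟨_, rfl⟩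
  have hl1 : ∀ z0, zz (lift z0) a = z0 := by
    intro z0
    funext t
    rw [hlift]
    change (if (finProdFinEquiv.symm (finProdFinEquiv (a, t))).1 = a then
      z0 (finProdFinEquiv.symm (finProdFinEquiv (a, t))).2 else 0) = z0 t
    rw [Equiv.symm_apply_apply, if_pos rfl]
  have hinj : Function.Injective lift := by
    intro u v huv
    rw [← hl1 u, ← hl1 v, huv]
  refine ⟨P0.image lift, ?_, ?_⟩
  · intro z hz
    obtain ⟨z0, hz0, rfl⟩ := Finset.mem_image.1 hz
    rw [hl1]
    exact hP0 z0 hz0
  · intro R hR hRα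
    rw [Finset.sum_image (fun u _ v _ h => hinj h)]
    have h2 : ∀ z0, mono R (lift z0) = mono (loc R a) z0 := by
      intro z0
      rw [mono_loc hR, hl1]
    rw [Finset.sum_congr rfl (fun z0 _ => h2 z0), hsum _ (by
      show (loc R a).card ≤ α
      rw [loc_card hR]
      exact hRα)]
    by_cases h5 : R = L0
    · rw [if_pos h5, if_pos (by rw [h5])]
    · rw [if_neg h5, if_neg]
      intro h6
      apply h5
      rw [eq_image_loc hR, eq_image_loc hL, h6]

end H84BA
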