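import Pool.Agent.H84.BA.Def

/-!
Counting the linear maps which send many vectors into a given small set (helper84).
-/

set_option autoImplicit false
open scoped Classical

namespace H84BA

/-- A set with `2 ^ R` vectors contains `R` linearly independent ones. -/
theorem exists_indep {s R : ℕ} (C0 : Finset (Fin s → ZMod 2)) (h : 2 ^ R ≤ C0.card) :
    ∃ v : Fin R → (Fin s → ZMod 2), (∀ i, v i ∈ C0) ∧ LinearIndependent (ZMod 2) v := by
  have : Fact (Nat.Prime 2) := ⟨Nat.prime_two⟩
  obtain ⟨b, hb1, hb2, hb3⟩ := exists_linearIndependent (ZMod 2) (C0 : Set (Fin s → ZMod 2))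
  have : Fintype b := Fintype.ofFinite b
  have h1 : Module.finrank (ZMod 2) (Submodule.span (ZMod 2) (C0 : Set (Fin s → ZMod 2))) = Fintype.card b := by
    have h2 := finrank_span_eq_card hb3
    rw [Subtype.range_coe, hb2] at h2
    exact h2
  have h2 : C0.card ≤ 2 ^ Fintype.card b := by
    have h3 : Fintype.card (Submodule.span (ZMod 2) (C0 : Set (Fin s → ZMod 2))) = 2 ^ Fintype.card b := by
      rw [Module.card_eq_pow_finrank (K := ZMod 2), ZMod.card, h1]
    rw [← h3, ← Fintype.card_coe]
    refine Fintype.card_le_of_injective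
      (fun x : C0 => (⟨x.1, Submodule.subset_span x.2⟩ : Submodule.span (ZMod 2) (C0 : Set (Fin s → ZMod 2)))) ?_
    intro x y hxy
    have h4 : (⟨x.1, Submodule.subset_span x.2⟩ : Submodule.span (ZMod 2) (C0 : Set (Fin s → ZMod 2))) =
      ⟨y.1, Submodule.subset_span y.2⟩ := hxy
    exact Subtype.ext (Subtype.mk.inj h4)
  have h3 : R ≤ Fintype.card b := (Nat.pow_le_pow_iff_right (by norm_num)).1 (h.trans h2)
  obtain ⟨e⟩ : Nonempty (Fin R ↪ b) := by
    refine ⟨(Fin.castLEEmb h3).trans (Fintype.equivFin b).symm.toEmbedding⟩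
  refine ⟨fun i => (e i : Fin s → ZMod 2), fun i => hb1 (e i).2, ?_⟩
  exact hb3.comp e e.injective

/-- The tables with prescribed values at independent vectors. -/
theorem fiber_count {s l R : ℕ} (v : Fin R → (Fin s → ZMod 2)) (hv : LinearIndependent (ZMod 2) v)
    (h : Fin R → (Fin l → ZMod 2)) :
    (Finset.univ.filter fun d : Fin s → Fin l → ZMod 2 => ∀ i, ∑ t, v i t • d t = h i).card * (2 ^ l) ^ R ≤
      (2 ^ l) ^ s := by
  obtain ⟨π, hπ⟩ := LinearMap.exists_leftInverse_of_injective (Fintype.linearCombination (ZMod 2) v)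
    (LinearMap.ker_eq_bot.2 (linearIndependent_iff_injective_fintypeLinearCombination.1 hv))
  obtain ⟨lam, hlam⟩ : ∃ lam : Fin R → Fin s → ZMod 2, lam = fun i t => π (Pi.single t 1) i := ⟨_, rfl⟩
  have hd : ∀ i j, ∑ t, v j t * lam i t = if i = j then 1 else 0 := by
    intro i j
    have h1 : π (v j) = Pi.single j 1 := by
      have h2 := LinearMap.congr_fun hπ (Pi.single j 1)
      rw [LinearMap.comp_apply, LinearMap.id_apply] at h2
      rw [← h2]
      congr 1
      rw [Fintype.linearCombination_apply_single, one_smul]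
    have h2 : π (v j) = ∑ t, v j t • π (Pi.single t 1) := by
      conv_lhs => rw [← Finset.univ_sum_single (v j)]
      rw [map_sum]
      refine Finset.sum_congr rfl fun t _ => ?_
      have h3 : (Pi.single t (v j t) : Fin s → ZMod 2) = v j t • Pi.single t 1 := by
        rw [← Pi.single_smul, smul_eq_mul, mul_one]
      rw [h3, map_smul]
    have h3 : π (v j) i = ∑ t, v j t * lam i t := by
      rw [h2, Finset.sum_apply]
      refine Finset.sum_congr rfl fun t _ => ?_
      rw [Pi.smul_apply, smul_eq_mul, hlam]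
    rw [← h3, h1, Pi.single_apply]
  have hV : ∀ k : ℕ, Fintype.card (Fin k → Fin l → ZMod 2) = (2 ^ l) ^ k := by
    intro k
    rw [Fintype.card_fun, Fintype.card_fun, ZMod.card, Fintype.card_fin, Fintype.card_fin]
  rw [← hV R, ← hV s, ← Finset.card_univ (α := Fin R → Fin l → ZMod 2), ← Finset.card_product,
    ← Finset.card_univ (α := Fin s → Fin l → ZMod 2)]
  have key : ∀ (d : Fin s → Fin l → ZMod 2) (y : Fin R → Fin l → ZMod 2) (j : Fin R), (∑ t, v j t • d t = h j) →
      ∑ t, v j t • (d t + ∑ i, lam i t • y i) = h j + y j := by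
    intro d y j hdj
    simp only [smul_add, Finset.sum_add_distrib]
    rw [hdj]
    congr 1
    simp only [Finset.smul_sum, smul_smul]
    rw [Finset.sum_comm]
    simp only [← Finset.sum_smul]
    rw [Finset.sum_eq_single j]
    · rw [hd, if_pos rfl, one_smul]
    · intro i _ hij
      rw [hd, if_neg hij, zero_smul]
    · intro hj
      exact absurd (Finset.mem_univ _) hj
  refine Finset.card_le_card_of_injOn (fun p => fun t => p.1 t + ∑ i, lam i t • p.2 i) ?_ ?_
  · intro p _
    exact Finset.mem_coe.2 (Finset.mem_univ _)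
  · rintro ⟨d, y⟩ hp ⟨d', y'⟩ hp' hpp
    have h1 := (Finset.mem_filter.1 (Finset.mem_product.1 (Finset.mem_coe.1 hp)).1).2
    have h2 := (Finset.mem_filter.1 (Finset.mem_product.1 (Finset.mem_coe.1 hp')).1).2
    have hpp' : (fun t => d t + ∑ i, lam i t • y i) = fun t => d' t + ∑ i, lam i t • y' i := hpp
    have hy : y = y' := by
      funext j
      have h3 := key d y j (h1 j)
      have h4 := key d' y' j (h2 j)
      have h5 : ∑ t, v j t • (d t + ∑ i, lam i t • y i) = ∑ t, v j t • (d' t + ∑ i, lam i t • y' i) := by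
        refine Finset.sum_congr rfl fun t _ => ?_
        rw [congrFun hpp' t]
      rw [h3, h4] at h5
      exact add_left_cancel h5
    subst hy
    have hdd : d = d' := by
      funext t
      exact add_right_cancel (congrFun hpp' t)
    rw [hdd]

/-- The tables for which at least `2 ^ R` vectors are sent into `H`. -/
noncomputable def BadT {s l : ℕ} (R : ℕ) (H : Finset (Fin l → ZMod 2)) : Finset (Fin s → Fin l → ZMod 2) :=
  Finset.univ.filter fun d => 2 ^ R ≤ (Finset.univ.filter fun u : Fin s → ZMod 2 => ∑ t, u t • d t ∈ H).card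

theorem badT_card {s l : ℕ} (R : ℕ) (H : Finset (Fin l → ZMod 2)) :
    (BadT (s := s) R H).card * (2 ^ l) ^ R ≤ (2 ^ s * H.card) ^ R * (2 ^ l) ^ s := by
  have hcov : BadT (s := s) R H ⊆
      ((Finset.univ.filter fun v : Fin R → (Fin s → ZMod 2) => LinearIndependent (ZMod 2) v) ×ˢ
        Fintype.piFinset fun _ : Fin R => H).biUnion fun p =>
          Finset.univ.filter fun d : Fin s → Fin l → ZMod 2 => ∀ i, ∑ t, p.1 i t • d t = p.2 i := by
    intro d hd
    obtain ⟨v, hv, hv2⟩ := exists_indep _ (Finset.mem_filter.1 hd).2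
    refine Finset.mem_biUnion.2 ⟨(v, fun i => ∑ t, v i t • d t), Finset.mem_product.2
      ⟨Finset.mem_filter.2 ⟨Finset.mem_univ _, hv2⟩, Fintype.mem_piFinset.2 fun i => ?_⟩,
      Finset.mem_filter.2 ⟨Finset.mem_univ _, fun i => rfl⟩⟩
    exact (Finset.mem_filter.1 (hv i)).2
  have h1 : (BadT (s := s) R H).card * (2 ^ l) ^ R ≤
      ∑ p ∈ ((Finset.univ.filter fun v : Fin R → (Fin s → ZMod 2) => LinearIndependent (ZMod 2) v) ×ˢ
        Fintype.piFinset fun _ : Fin R => H), (2 ^ l) ^ s := by
    refine (Nat.mul_le_mul_right _ ((Finset.card_le_card hcov).trans Finset.card_biUnion_le)).trans ?_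
    rw [Finset.sum_mul]
    refine Finset.sum_le_sum fun p hp => ?_
    exact fiber_count p.1 (Finset.mem_filter.1 (Finset.mem_product.1 hp).1).2 p.2
  refine h1.trans ?_
  rw [Finset.sum_const, smul_eq_mul]
  refine Nat.mul_le_mul_right _ ?_
  rw [Finset.card_product, Fintype.card_piFinset, Finset.prod_const, Finset.card_univ, Fintype.card_fin, mul_pow]
  refine Nat.mul_le_mul_right _ ((Finset.card_filter_le _ _).trans (le_of_eq ?_))
  rw [Finset.card_univ, Fintype.card_fun, Fintype.card_fun, ZMod.card, Fintype.card_fin, Fintype.card_fin]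

/-- Counting the tables whose rows in `G` lie in sets which are determined by the other rows. -/
theorem row_count {m : ℕ} {D : Type} [Fintype D] (G : Finset (Fin m)) (K : ℕ)
    (W : (Fin m → D) → Fin m → Finset D)
    (hW : ∀ c c' : Fin m → D, (∀ a, a ∉ G → c a = c' a) → ∀ a ∈ G, W c a = W c' a)
    (hK : ∀ c, ∀ a ∈ G, (W c a).card ≤ K) (A : Finset (Fin m → D))
    (hA : ∀ c ∈ A, ∀ a ∈ G, c a ∈ W c a) :
    A.card * Fintype.card D ^ G.card ≤ K ^ G.card * Fintype.card D ^ m := by
  let f : (Fin m → D) → ({a : Fin m // a ∉ G} → D) := fun c a => c a.1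
  have h1 : A.card ≤ K ^ G.card * (A.image f).card := by
    refine Finset.card_le_mul_card_image A (K ^ G.card) ?_
    intro r hr
    obtain ⟨c0, hc0, rfl⟩ := Finset.mem_image.1 hr
    let g : (Fin m → D) → ({a : Fin m // a ∈ G} → D) := fun c a => c a.1
    have h2 : (A.filter fun c => f c = f c0).card ≤
        (Fintype.piFinset (fun a : {a : Fin m // a ∈ G} => W c0 a.1)).card := by
      refine Finset.card_le_card_of_injOn g ?_ ?_
      · intro c hc
        have hc' := Finset.mem_coe.1 hc
        obtain ⟨hc1, hc2⟩ := Finset.mem_filter.1 hc'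
        rw [Finset.mem_coe, Fintype.mem_piFinset]
        intro a
        have h3 := hA c hc1 a.1 a.2
        have h4 : W c a.1 = W c0 a.1 := hW c c0 (fun a' ha' => congrFun hc2 ⟨a', ha'⟩) a.1 a.2
        rw [← h4]
        exact h3
      · intro c hc c' hc' hcc'
        obtain ⟨-, hc2⟩ := Finset.mem_filter.1 (Finset.mem_coe.1 hc)
        obtain ⟨-, hc2'⟩ := Finset.mem_filter.1 (Finset.mem_coe.1 hc')
        funext a
        by_cases h : a ∈ G
        · exact congrFun hcc' ⟨a, h⟩
        · exact congrFun (hc2.trans hc2'.symm) ⟨a, h⟩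
    refine h2.trans ?_
    rw [Fintype.card_piFinset]
    have h3 : ∏ a : {a : Fin m // a ∈ G}, (W c0 a.1).card ≤ ∏ _a : {a : Fin m // a ∈ G}, K :=
      Finset.prod_le_prod' fun a _ => hK c0 a.1 a.2
    refine h3.trans (le_of_eq ?_)
    rw [Finset.prod_const, Finset.card_univ, Fintype.card_coe]
  have h2 : (A.image f).card * Fintype.card D ^ G.card ≤ Fintype.card D ^ m := by
    have h3 : (A.image f).card ≤ Fintype.card D ^ Fintype.card {a : Fin m // a ∉ G} := by
      refine (Finset.card_le_univ _).trans (le_of_eq ?_)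
      rw [Fintype.card_fun]
    have h4 : Fintype.card {a : Fin m // a ∉ G} + G.card = m := by
      rw [Fintype.card_subtype_compl, Fintype.card_coe, Fintype.card_fin]
      have : G.card ≤ m := by
        have h5 := Finset.card_le_univ G
        rwa [Fintype.card_fin] at h5
      omega
    calc (A.image f).card * Fintype.card D ^ G.card
        ≤ Fintype.card D ^ Fintype.card {a : Fin m // a ∉ G} * Fintype.card D ^ G.card :=
          Nat.mul_le_mul_right _ h3
      _ = Fintype.card D ^ m := by rw [← pow_add, h4]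
  calc A.card * Fintype.card D ^ G.card ≤ K ^ G.card * (A.image f).card * Fintype.card D ^ G.card :=
        Nat.mul_le_mul_right _ h1
    _ = K ^ G.card * ((A.image f).card * Fintype.card D ^ G.card) := by ring
    _ ≤ K ^ G.card * Fintype.card D ^ m := Nat.mul_le_mul_left _ h2

end H84BA
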